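import Pool.Agent.MP_a43263_nt.R2.Maj
import Pool.Agent.MP_a43263_nt.R2.Mer

/-! Upper bound sieves for one and two linear forms. -/

set_option autoImplicit false

noncomputable section

namespace Pool.Agent.MP_35c637_nt.OS

open Finset Pool.Agent.MP_a43263_nt.R2

def E (P : Finset ℕ) : ℝ := ∏ p ∈ P, (1 + 1 / (p : ℝ))

def sg (m : ℕ) : ℝ := E m.primeFactors

theorem one_le_E (P : Finset ℕ) : 1 ≤ E P :=
  prod_induction _ (1 ≤ ·) (fun _ _ => one_le_mul_of_one_le_of_one_le) le_rfl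
    fun p _ => le_add_of_nonneg_right (by positivity)

theorem E_pos (P : Finset ℕ) : 0 < E P := one_pos.trans_le (one_le_E P)

theorem E_mono {P Q : Finset ℕ} (h : P ⊆ Q) : E P ≤ E Q := by
  have e : E (Q \ P) * E P = E Q := prod_sdiff h
  rw [← e]
  exact le_mul_of_one_le_left (E_pos P).le (one_le_E _)

theorem E_union (P Q : Finset ℕ) : E (P ∪ Q) ≤ E P * E Q := by
  have e : E (P ∪ Q) * E (P ∩ Q) = E P * E Q := prod_union_inter
  rw [← e]
  exact le_mul_of_one_le_right (E_pos _).le (one_le_E _)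

theorem one_le_sg (m : ℕ) : 1 ≤ sg m := one_le_E _

theorem sg_mul {m n : ℕ} (hm : m ≠ 0) (hn : n ≠ 0) : sg (m * n) ≤ sg m * sg n := by
  rw [sg, Nat.primeFactors_mul hm hn]
  exact E_union _ _

theorem card_lin {p : ℕ} (hp : p.Prime) {u : ℤ} (v : ℤ) (hu : ¬(p : ℤ) ∣ u) :
    ((range p).filter fun r : ℕ => (p : ℤ) ∣ u * r + v).card = 1 := by
  have := Fact.mk hp
  have hu' : (u : ZMod p) ≠ 0 := fun h => hu ((ZMod.intCast_zmod_eq_zero_iff_dvd u p).1 h)
  refine card_eq_one.2 ⟨(-(v : ZMod p) * (u : ZMod p)⁻¹).val, ?_⟩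
  ext r
  rw [mem_filter, mem_range, mem_singleton, ← ZMod.intCast_zmod_eq_zero_iff_dvd]
  push_cast
  constructor
  · rintro ⟨h1, h2⟩
    have : -(v : ZMod p) * (u : ZMod p)⁻¹ = r := by
      field_simp
      linear_combination -h2
    rw [this, ZMod.val_natCast, Nat.mod_eq_of_lt h1]
  · rintro rfl
    refine ⟨ZMod.val_lt _, ?_⟩
    rw [ZMod.natCast_zmod_val]
    field_simp
    ring

/-- the sieve for two forms -/
theorem gs : ∃ y0 : ℕ, 4 ≤ y0 ∧ ∀ y : ℕ, y0 ≤ y → ∀ (u1 v1 u2 v2 : ℤ) (P1 P2 : Finset ℕ) (s : ℤ)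
    (N : ℕ) (T : Finset ℤ), P1 ⊆ pri 3 y → P2 ⊆ P1 → (∀ p ∈ P1, ¬(p : ℤ) ∣ u1) →
    (∀ p ∈ P2, ¬(p : ℤ) ∣ u2 ∧ ¬(p : ℤ) ∣ u1 * v2 - u2 * v1) →
    (∀ n ∈ T, s ≤ n ∧ n < s + N ∧ (∀ p ∈ P1, ¬(p : ℤ) ∣ u1 * n + v1) ∧
      ∀ p ∈ P2, ¬(p : ℤ) ∣ u2 * n + v2) →
    (T.card : ℝ) ≤ 2 * N / (E P1 * E P2) + 2 * (y : ℝ) ^ 60 := by
  classical
  obtain ⟨-, ⟨C, hC⟩, -, -, -⟩ := mer
  refine ⟨max 4 ⌈Real.exp (4 * C)⌉₊, le_max_left _ _,
    fun y hy u1 v1 u2 v2 P1 P2 s N T h1 h2 hu1 hu2 hT => ?_⟩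
  have y4 : 4 ≤ y := (le_max_left _ _).trans hy
  have hz0 : (0 : ℝ) < y := by exact_mod_cast (by omega : 0 < y)
  have lz : 0 < Real.log y := Real.log_pos (by exact_mod_cast (by omega : 1 < y))
  have hz1 : 4 * C ≤ Real.log y :=
    (Real.le_log_iff_exp_le hz0).2 (Nat.ceil_le.1 ((le_max_right _ _).trans hy))
  set ω : ℕ → ℕ := fun p => if p ∈ P2 then 2 else 1 with hω
  set w : ℕ → ℝ := fun p => (ω p : ℝ) / (p - ω p) with hw
  have hp : ∀ p ∈ P1, p.Prime ∧ 3 < p := fun p hp =>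
    ⟨(Mer.mem_pri.1 (h1 hp)).2, (Mer.mem_pri.1 (h1 hp)).1.1⟩
  have hw1 : ∀ p ∈ P1, 0 ≤ w p ∧ w p ≤ 4 / p ∧
      (1 + 1 / (p : ℝ)) * (if p ∈ P2 then 1 + 1 / (p : ℝ) else 1) ≤ 1 + w p := by
    intro p hp'
    have p4 : (4 : ℝ) ≤ p := by exact_mod_cast (hp p hp').2
    simp only [hw, hω]
    split_ifs with e
    · have p6 : (0 : ℝ) < p - 2 := by linarith
      push_cast
      refine ⟨by positivity, by rw [div_le_div_iff₀ p6 (by linarith)]; linarith, ?_⟩
      rw [← sub_nonneg, show 1 + 2 / ((p : ℝ) - 2) - (1 + 1 / p) * (1 + 1 / p) =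
        (3 * p + 2) / (p ^ 2 * (p - 2)) by field_simp; ring]
      positivity
    · have p6 : (0 : ℝ) < p - 1 := by linarith
      push_cast
      refine ⟨by positivity, by rw [div_le_div_iff₀ p6 (by linarith)]; linarith, ?_⟩
      rw [mul_one]
      gcongr
      linarith
  have k1 := sv crt P1 (fun p n => (p : ℤ) ∣ u1 * n + v1 ∨ p ∈ P2 ∧ (p : ℤ) ∣ u2 * n + v2) ω
    (P1.powerset.filter fun A => ∏ p ∈ A, p ≤ y ^ 10) s N (y ^ 10) (fun p h => (hp p h).1)
    (fun p _ n => by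
      rw [show u1 * (n + p) + v1 = (u1 * n + v1) + p * u1 by ring,
        show u2 * (n + p) + v2 = (u2 * n + v2) + p * u2 by ring,
        dvd_add_left (dvd_mul_right _ _), dvd_add_left (dvd_mul_right _ _)])
    (fun p hp' => by
      obtain ⟨q1, q2⟩ := hp p hp'
      simp only [hω]
      split_ifs with e
      · refine ⟨?_, by omega⟩
        have e1 := card_lin q1 v1 (hu1 p hp')
        have e2 := card_lin q1 v2 (hu2 p e).1
        have e3 : Disjoint ((range p).filter fun r : ℕ => (p : ℤ) ∣ u1 * r + v1)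
            ((range p).filter fun r : ℕ => (p : ℤ) ∣ u2 * r + v2) :=
          disjoint_left.2 fun r b1 b2 => (hu2 p e).2 (by
            rw [show u1 * v2 - u2 * v1 = u1 * (u2 * r + v2) - u2 * (u1 * r + v1) by ring]
            exact dvd_sub (Dvd.dvd.mul_left (mem_filter.1 b2).2 _)
              (Dvd.dvd.mul_left (mem_filter.1 b1).2 _))
        have e4 := card_union_of_disjoint e3
        rw [e1, e2] at e4
        rw [← (show _ = 2 from e4)]
        congr 1
        ext r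
        simp only [mem_filter, mem_union, e, true_and]
        tauto
      · refine ⟨?_, by omega⟩
        rw [← card_lin q1 v1 (hu1 p hp')]
        congr 1
        ext r
        simp only [mem_filter, e, false_and, or_false])
    (mem_filter.2 ⟨empty_mem_powerset _, by simpa using Nat.one_le_pow 10 y (by omega)⟩)
    fun A hA => ⟨mem_powerset.1 (mem_filter.1 hA).1, (mem_filter.1 hA).2⟩
  have k2 := (pm P1 w fun p hp => (hw1 p hp).1).1 (fun p => Real.log p) (10 * Real.log y)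
    fun p _ => Real.log_natCast_nonneg p
  have k3 : ∑ p ∈ P1, Real.log p * w p ≤ 5 * Real.log y := by
    have a1 := hC 3 y (by omega)
    have a2 : ∑ p ∈ P1, Real.log p / p ≤ ∑ p ∈ pri 3 y, Real.log p / p :=
      sum_le_sum_of_subset_of_nonneg h1 fun p _ _ =>
        div_nonneg (Real.log_natCast_nonneg p) (Nat.cast_nonneg p)
    refine (sum_le_sum fun p hp => mul_le_mul_of_nonneg_left (hw1 p hp).2.1
      (Real.log_natCast_nonneg p)).trans ?_
    rw [sum_congr rfl (g := fun p : ℕ => 4 * (Real.log p / p)) fun p _ => by ring, ← mul_sum]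
    linarith
  have k4 : E P1 * E P2 ≤ ∏ p ∈ P1, (1 + w p) := by
    refine le_trans (le_of_eq ?_) (prod_le_prod (fun p _ => by positivity) fun p hp => (hw1 p hp).2.2)
    rw [prod_mul_distrib, ← prod_filter, filter_mem_eq_inter, inter_eq_right.2 h2, E, E]
  have k0 : 0 < E P1 * E P2 := mul_pos (E_pos _) (E_pos _)
  have k5 : (∏ p ∈ P1, (1 + w p)) / 2 ≤
      ∑ A ∈ P1.powerset.filter (fun A => ∏ p ∈ A, p ≤ y ^ 10), ∏ p ∈ A, w p := by
    have e1 := sum_filter_add_sum_filter_not P1.powerset (fun A => ∏ p ∈ A, p ≤ y ^ 10)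
      fun A => ∏ p ∈ A, w p
    rw [← prod_one_add] at e1
    have e2 : P1.powerset.filter (fun A => ¬∏ p ∈ A, p ≤ y ^ 10) =
        P1.powerset.filter fun A => 10 * Real.log y < ∑ p ∈ A, Real.log (p : ℕ) := by
      refine filter_congr fun A hA => ?_
      have e3 : ∀ p ∈ A, (0 : ℝ) < p := fun p hp' => by
        exact_mod_cast (hp p (mem_powerset.1 hA hp')).1.pos
      rw [← Real.log_prod fun p hp' => (e3 p hp').ne', not_le,
        show (10 : ℝ) * Real.log y = Real.log (y ^ 10) by simp,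
        Real.log_lt_log_iff (by positivity) (prod_pos e3), ← Nat.cast_prod, ← Nat.cast_pow,
        Nat.cast_lt]
    rw [e2] at e1
    have e3 := k2.trans (mul_le_mul_of_nonneg_right k3 (k0.le.trans k4))
    nlinarith
  refine le_trans ?_ (k1.trans (add_le_add ?_ (le_of_eq (by push_cast; ring))))
  · rw [Nat.cast_le]
    refine card_le_card fun n hn => ?_
    obtain ⟨a1, a2, a3, a4⟩ := hT n hn
    simp only [mem_filter, mem_Ico]
    exact ⟨⟨a1, a2⟩, fun p hp' h => h.elim (a3 p hp') fun h => a4 p h.1 h.2⟩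
  · refine (div_le_div_of_nonneg_left (Nat.cast_nonneg _) (half_pos k0)
      (le_trans (by linarith) k5)).trans (le_of_eq ?_)
    field_simp

theorem lowE : ∃ c : ℝ, 0 < c ∧ ∀ a y m : ℕ, 1 ≤ a → a ≤ y → m ≠ 0 →
    c * Real.log y ≤ (1 + Real.log a) * (sg m * E ((pri a y).filter fun p => ¬p ∣ m)) := by
  obtain ⟨-, -, -, ⟨c, hc, hm⟩, -⟩ := mer
  refine ⟨c, hc, fun a y m ha hy h0 => (hm a y ha hy).trans (mul_le_mul_of_nonneg_left ?_ ?_)⟩
  · refine le_trans (E_mono (P := pri a y) fun p hp => ?_) (E_union _ _)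
    by_cases h : p ∣ m
    · exact mem_union_left _ (Nat.mem_primeFactors.2 ⟨(Mer.mem_pri.1 hp).2, h, h0⟩)
    · exact mem_union_right _ (mem_filter.2 ⟨hp, h⟩)
  · have := Real.log_natCast_nonneg a
    linarith

theorem log3 : 1 + Real.log (3 : ℕ) ≤ 3 := by
  have := Real.log_le_sub_one_of_pos (show (0 : ℝ) < (3 : ℕ) by norm_num)
  push_cast at this ⊢
  linarith

theorem ndvd {p t y : ℕ} (hp : p ∈ pri 3 y) (ht : t.Prime) (h : y < t) : ¬(p : ℤ) ∣ (t : ℤ) := by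
  obtain ⟨⟨-, a2⟩, a3⟩ := Mer.mem_pri.1 hp
  rw [Int.natCast_dvd_natCast, Nat.prime_dvd_prime_iff_eq a3 ht]
  omega

/-- two prime values -/
theorem tw : ∃ C : ℝ, 0 < C ∧ ∃ y0 : ℕ, ∀ y : ℕ, y0 ≤ y → ∀ M a b : ℕ, 0 < M → a.Prime → b.Prime →
    y < a → a < b → ∀ (s N : ℕ) (T : Finset ℕ),
    (∀ c ∈ T, s ≤ c ∧ c < s + N ∧ 1 ≤ c ∧ (M * a * c + 1).Prime ∧ (M * b * c + 1).Prime) →
    (T.card : ℝ) ≤ C * sg M ^ 2 * sg (b - a) * N / Real.log y ^ 2 + 2 * (y : ℝ) ^ 60 := by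
  obtain ⟨y0, h4, hg⟩ := gs
  obtain ⟨c, hc, hl⟩ := lowE
  refine ⟨18 / c ^ 2, by positivity, y0, fun y hy M a b hM ha hb hya hab s N T hT => ?_⟩
  have lz : 0 < Real.log y := Real.log_pos (by exact_mod_cast (by omega : 1 < y))
  have hd : b - a ≠ 0 := by omega
  have key : ∀ p ∈ pri 3 y, ¬p ∣ M → ∀ x : ℕ, x.Prime → y < x → ¬(p : ℤ) ∣ ((M * x : ℕ) : ℤ) := by
    intro p hp hm x hx hyx h
    rcases (Mer.mem_pri.1 hp).2.dvd_mul.1 (Int.natCast_dvd_natCast.1 h) with h | h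
    · exact hm h
    · exact ndvd hp hx hyx (Int.natCast_dvd_natCast.2 h)
  have big : ∀ x c : ℕ, y < x → 1 ≤ c → y < M * x * c + 1 := fun x c h1 h2 => by
    have : x ≤ M * x * c := (Nat.le_mul_of_pos_left x hM).trans (Nat.le_mul_of_pos_right _ h2)
    omega
  have k := hg y hy ((M * a : ℕ) : ℤ) 1 ((M * b : ℕ) : ℤ) 1 ((pri 3 y).filter fun p => ¬p ∣ M)
    ((pri 3 y).filter fun p => ¬p ∣ M * (b - a)) s N (T.image fun c : ℕ => (c : ℤ))
    (filter_subset _ _)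
    (fun p hp => mem_filter.2 ⟨(mem_filter.1 hp).1, fun h => (mem_filter.1 hp).2 (h.mul_right _)⟩)
    (fun p hp => key p (mem_filter.1 hp).1 (mem_filter.1 hp).2 a ha hya)
    (fun p hp => ⟨key p (mem_filter.1 hp).1 (fun h => (mem_filter.1 hp).2 (h.mul_right _)) b hb
      (hya.trans hab), fun h => (mem_filter.1 hp).2 (by
        rw [← Int.natCast_dvd_natCast, ← dvd_neg]
        push_cast [Nat.cast_sub hab.le] at h ⊢
        rwa [show -((M : ℤ) * (b - a)) = M * a * 1 - M * b * 1 by ring])⟩)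
    (fun n hn => by
      obtain ⟨c, hc', rfl⟩ := mem_image.1 hn
      obtain ⟨a1, a2, a3, a4, a5⟩ := hT c hc'
      refine ⟨by exact_mod_cast a1, by exact_mod_cast a2, fun p hp => ?_, fun p hp => ?_⟩
      · exact_mod_cast ndvd (mem_filter.1 hp).1 a4 (big a c hya a3)
      · exact_mod_cast ndvd (mem_filter.1 hp).1 a5 (big b c (hya.trans hab) a3))
  rw [card_image_of_injective _ Nat.cast_injective] at k
  refine k.trans (add_le_add ?_ le_rfl)
  have e1 := (hl 3 y M (by norm_num) (by omega) hM.ne').trans (mul_le_mul_of_nonneg_right log3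
    (mul_pos (one_pos.trans_le (one_le_sg _)) (E_pos _)).le)
  have e2 := (hl 3 y (M * (b - a)) (by norm_num) (by omega) (Nat.mul_ne_zero hM.ne' hd)).trans
    (mul_le_mul log3 (mul_le_mul_of_nonneg_right (sg_mul hM.ne' hd) (E_pos _).le)
      (mul_pos (one_pos.trans_le (one_le_sg _)) (E_pos _)).le (by norm_num))
  have e3 := mul_le_mul e1 e2 (by positivity) (le_trans (by positivity) e1)
  have p1 := E_pos ((pri 3 y).filter fun p => ¬p ∣ M)
  have p2 := E_pos ((pri 3 y).filter fun p => ¬p ∣ M * (b - a))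
  rw [div_le_div_iff₀ (mul_pos p1 p2) (by positivity)]
  have e4 := mul_le_mul_of_nonneg_left e3 (show 0 ≤ 2 * (N : ℝ) / c ^ 2 by positivity)
  refine le_trans (le_of_eq ?_) (e4.trans (le_of_eq ?_))
  · field_simp
  · field_simp
    ring

/-- primes in a progression, with a second condition on the shifted prime -/
theorem ap : ∃ C : ℝ, 0 < C ∧ ∃ y0 : ℕ, ∀ y : ℕ, y0 ≤ y → ∀ (q : ℕ) (r : ℤ) (A X : ℕ) (T : Finset ℕ),
    0 < q → 3 ≤ A → A ≤ y → (∀ p ∈ pri A y, ¬p ∣ q ∧ ¬(p : ℤ) ∣ r) →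
    (∀ t ∈ T, X ≤ t ∧ t < 2 * X ∧ t.Prime ∧ y < t ∧ (q : ℤ) ∣ t - r ∧
      ∀ p ∈ pri A y, ¬(p : ℤ) ∣ t - r) →
    (T.card : ℝ) ≤ C * sg q * ((X : ℝ) / q + 2) * (1 + Real.log A) / Real.log y ^ 2 +
      2 * (y : ℝ) ^ 60 := by
  obtain ⟨y0, h4, hg⟩ := gs
  obtain ⟨c, hc, hl⟩ := lowE
  refine ⟨6 / c ^ 2, by positivity, y0, fun y hy q r A X T hq hA hAy hP hT => ?_⟩
  have lz : 0 < Real.log y := Real.log_pos (by exact_mod_cast (by omega : 1 < y))
  have hq' : (0 : ℤ) < q := by exact_mod_cast hq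
  have hm : ∀ t ∈ T, (q : ℤ) * ((t - r) / q) + r = t := fun t ht => by
    rw [Int.mul_ediv_cancel' (hT t ht).2.2.2.2.1]
    ring
  have k := hg y hy q r 1 0 ((pri 3 y).filter fun p => ¬p ∣ q) (pri A y) ((X - r) / q) (X / q + 2)
    (T.image fun t : ℕ => ((t : ℤ) - r) / q) (filter_subset _ _)
    (fun p hp => mem_filter.2 ⟨by
      obtain ⟨⟨a1, a2⟩, a3⟩ := Mer.mem_pri.1 hp
      exact Mer.mem_pri.2 ⟨⟨by omega, a2⟩, a3⟩, (hP p hp).1⟩)
    (fun p hp h => (mem_filter.1 hp).2 (Int.natCast_dvd_natCast.1 h))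
    (fun p hp => ⟨fun h => (Mer.mem_pri.1 hp).2.one_lt.ne' (by
      exact_mod_cast Int.eq_one_of_dvd_one (Int.natCast_nonneg p) h),
      fun h => (hP p hp).2 (by simpa using h)⟩)
    (fun n hn => by
      obtain ⟨t, ht, rfl⟩ := mem_image.1 hn
      obtain ⟨a1, a2, a3, a4, a5, a6⟩ := hT t ht
      refine ⟨Int.ediv_le_ediv hq' (by omega), ?_, fun p hp => ?_, fun p hp h => a6 p hp ?_⟩
      · rw [Int.ediv_lt_iff_lt_mul hq']
        have b1 := Int.lt_ediv_add_one_mul_self ((X : ℤ) - r) hq'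
        have b2 := Int.lt_ediv_add_one_mul_self (X : ℤ) hq'
        have b3 : (t : ℤ) < 2 * X := by exact_mod_cast a2
        push_cast
        nlinarith
      · rw [hm t ht]
        exact ndvd (mem_filter.1 hp).1 a3 a4
      · rw [← Int.mul_ediv_cancel' a5]
        exact Dvd.dvd.mul_left (by simpa using h) _)
  rw [card_image_of_injOn fun t ht t' ht' e => by
    have b1 := hm t (mem_coe.1 ht)
    have b2 := hm t' (mem_coe.1 ht')
    rw [e, b2] at b1
    exact_mod_cast b1.symm] at k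
  refine k.trans (add_le_add ?_ le_rfl)
  have e1 := (hl 3 y q (by norm_num) (by omega) hq.ne').trans (mul_le_mul_of_nonneg_right log3
    (mul_pos (one_pos.trans_le (one_le_sg _)) (E_pos _)).le)
  have e2 := hl A y 1 (by omega) hAy one_ne_zero
  rw [show sg 1 = 1 by simp [sg, E], one_mul] at e2
  have lA := Real.log_natCast_nonneg A
  have e2' := e2.trans (mul_le_mul_of_nonneg_left (E_mono (filter_subset _ _)) (by linarith))
  have e3 := mul_le_mul e1 e2' (by positivity) (le_trans (by positivity) e1)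
  have p1 := E_pos ((pri 3 y).filter fun p => ¬p ∣ q)
  have p2 := E_pos (pri A y)
  have p3 := one_le_sg q
  have e5 : ((X / q + 2 : ℕ) : ℝ) ≤ (X : ℝ) / q + 2 := by
    push_cast
    exact add_le_add Nat.cast_div_le le_rfl
  refine (div_le_div_of_nonneg_right (mul_le_mul_of_nonneg_left e5 zero_le_two)
    (mul_pos p1 p2).le).trans ?_
  rw [div_le_div_iff₀ (mul_pos p1 p2) (by positivity)]
  have e4 := mul_le_mul_of_nonneg_left e3 (show 0 ≤ 2 * ((X : ℝ) / q + 2) / c ^ 2 by positivity)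
  refine le_trans (le_of_eq ?_) (e4.trans (le_of_eq ?_))
  · field_simp
  · field_simp
    ring

end Pool.Agent.MP_35c637_nt.OS

end
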