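import Pool.Agent.MP_35c637_nt.os.Sv

/-! The singular series on average over differences of primes. -/

set_option autoImplicit false

noncomputable section

namespace Pool.Agent.MP_35c637_nt.OS

open Finset Filter Pool.Agent.MP_a43263_nt.R2

def gg (m : ℕ) : ℝ := 1 + ∑ l ∈ m.primeFactors, 1 / √(l : ℝ)

theorem one_le_gg (m : ℕ) : 1 ≤ gg m :=
  le_add_of_nonneg_right (sum_nonneg fun _ _ => by positivity)

theorem sg_le_gg : ∃ C : ℝ, 0 < C ∧ ∀ m : ℕ, sg m ≤ C * gg m := by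
  obtain ⟨-, -, h3, -, -⟩ := mer
  obtain ⟨C, hC⟩ := h3 1
  refine ⟨12 * |C| + 1, by positivity, fun m => ?_⟩
  have g1 := one_le_gg m
  set y : ℕ := ⌈gg m ^ 2⌉₊ + 1 with hy
  have y1 : gg m ^ 2 ≤ y := by
    rw [hy]
    push_cast
    linarith [Nat.le_ceil (gg m ^ 2)]
  have y2 : (y : ℝ) ≤ (2 * gg m) ^ 2 := by
    rw [hy]
    push_cast
    nlinarith [Nat.ceil_lt_add_one (sq_nonneg (gg m))]
  have y3 : 2 ≤ y := by
    have : 0 < ⌈gg m ^ 2⌉₊ := Nat.ceil_pos.2 (by positivity)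
    omega
  have y0 : (0 : ℝ) < y := by positivity
  have l1 : Real.log y ≤ 4 * gg m := by
    have a1 := Real.log_le_log y0 y2
    rw [Real.log_pow] at a1
    have a2 := Real.log_le_sub_one_of_pos (show 0 < 2 * gg m by positivity)
    push_cast at a1
    linarith
  have e1 : E (pri 0 y) ≤ |C| * (4 * gg m) := by
    have a1 := hC y y3
    simp only [Nat.cast_one, pow_one] at a1
    exact a1.trans (mul_le_mul (le_abs_self C) l1 (Real.log_natCast_nonneg y) (abs_nonneg C))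
  have e2 : E (m.primeFactors.filter fun l => y < l) ≤ 3 := by
    have a1 : ∑ l ∈ m.primeFactors.filter (fun l => y < l), 1 / (l : ℝ) ≤ 1 := by
      have b1 : ∀ l ∈ m.primeFactors.filter (fun l => y < l),
          1 / (l : ℝ) ≤ 1 / √(l : ℝ) * (1 / gg m) := fun l hl => by
        have c1 : (y : ℝ) ≤ l := by exact_mod_cast (mem_filter.1 hl).2.le
        have c2 : gg m ≤ √(l : ℝ) := Real.le_sqrt_of_sq_le (y1.trans c1)
        have c3 : 0 < √(l : ℝ) := by linarith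
        rw [div_mul_div_comm, one_mul]
        refine one_div_le_one_div_of_le (by positivity) ?_
        nlinarith [Real.mul_self_sqrt (Nat.cast_nonneg (α := ℝ) l)]
      refine (sum_le_sum b1).trans ?_
      rw [← sum_mul, mul_one_div, div_le_one (by linarith)]
      refine (sum_le_sum_of_subset_of_nonneg (filter_subset _ _) fun _ _ _ => by positivity).trans ?_
      rw [gg]
      linarith
    refine (prod_le_prod (fun _ _ => by positivity) fun l _ =>
      (add_comm _ _).le.trans (Real.add_one_le_exp _)).trans ?_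
    rw [← Real.exp_sum]
    exact (Real.exp_le_exp.2 a1).trans (Real.exp_one_lt_d9.le.trans (by norm_num))
  have e3 : sg m ≤ E (pri 0 y) * E (m.primeFactors.filter fun l => y < l) := by
    refine le_trans (E_mono fun l hl => ?_) (E_union _ _)
    have := Nat.prime_of_mem_primeFactors hl
    by_cases h : y < l
    · exact mem_union_right _ (mem_filter.2 ⟨hl, h⟩)
    · exact mem_union_left _ (Mer.mem_pri.2 ⟨⟨this.pos, by omega⟩, this⟩)
  have e4 := mul_le_mul e1 e2 (E_pos _).le (by positivity)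
  nlinarith

theorem sg_le_tot {M : ℕ} (hM : 0 < M) : sg M ≤ (M : ℝ) / M.totient := by
  have h : (M.totient : ℝ) = M * ∏ p ∈ M.primeFactors, (1 - (p : ℝ)⁻¹) := by
    have := congrArg (Rat.cast : ℚ → ℝ) (Nat.totient_eq_mul_prod_factors M)
    push_cast at this
    exact this
  have h0 : (0 : ℝ) < M.totient := by exact_mod_cast Nat.totient_pos.2 hM
  rw [le_div_iff₀ h0, h, mul_left_comm, sg, E, ← prod_mul_distrib]
  refine mul_le_of_le_one_right (Nat.cast_nonneg M) (prod_le_one (fun p hp => ?_) fun p hp => ?_)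
  · have : (1 : ℝ) ≤ p := by exact_mod_cast (Nat.prime_of_mem_primeFactors hp).one_le
    exact mul_nonneg (by positivity) (sub_nonneg.2 (inv_le_one_of_one_le₀ this))
  · rw [one_div]
    nlinarith [sq_nonneg (p : ℝ)⁻¹]

theorem ev (c : ℝ) (d e : ℕ) (he : 0 < e) : ∀ᶠ k : ℕ in atTop, c * (k : ℝ) ^ d ≤ 2 ^ (k / e) := by
  have h1 := (tendsto_pow_const_div_const_pow_of_one_lt d (show (1 : ℝ) < 2 by norm_num)).const_mul
    (|c| * (2 * e) ^ d)
  rw [mul_zero] at h1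
  have h2 := (Nat.tendsto_div_const_atTop he.ne').eventually
    ((h1.eventually_le_const one_pos).and (eventually_ge_atTop 1))
  filter_upwards [h2] with k ⟨a1, a2⟩
  rw [← mul_div_assoc, div_le_one (by positivity), mul_assoc, ← mul_pow] at a1
  refine le_trans ?_ a1
  have a3 : k ≤ 2 * e * (k / e) := by
    have := Nat.lt_mul_div_succ k he
    nlinarith
  exact mul_le_mul (le_abs_self c) (pow_le_pow_left₀ (Nat.cast_nonneg k) (by exact_mod_cast a3) d)
    (by positivity) (abs_nonneg c)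

theorem log2pow (j : ℕ) : (j : ℝ) / 2 ≤ Real.log (2 ^ j : ℕ) ∧ Real.log (2 ^ j : ℕ) ≤ j := by
  push_cast
  rw [Real.log_pow]
  have := Real.log_two_gt_d9
  have := Real.log_two_lt_d9
  have : (0 : ℝ) ≤ j := Nat.cast_nonneg j
  constructor <;> nlinarith

theorem div_ge {k e : ℕ} (he : 0 < e) (h : e ≤ k) : (k : ℝ) / (2 * e) ≤ (k / e : ℕ) := by
  have a1 := Nat.lt_mul_div_succ k he
  have a2 : 1 ≤ k / e := (Nat.one_le_div_iff he).2 h
  have a3 : k ≤ k / e * (2 * e) := by nlinarith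
  rw [div_le_iff₀ (by positivity)]
  exact_mod_cast a3

/-- the primes of a dyadic block -/
def Dy (k : ℕ) : Finset ℕ := (Ico (2 ^ k) (2 ^ (k + 1))).filter Nat.Prime

theorem mem_Dy {k p : ℕ} : p ∈ Dy k ↔ (2 ^ k ≤ p ∧ p < 2 * 2 ^ k) ∧ p.Prime := by
  rw [Dy, mem_filter, mem_Ico, pow_succ']

theorem bt (K : ℕ) : ∃ C : ℝ, 0 < C ∧ ∀ᶠ k : ℕ in atTop, ∀ (q : ℕ) (r : ℤ), 0 < q → sg q ≤ 2 →
    q ≤ (K * k) ^ 2 → (((Dy k).filter fun b : ℕ => (q : ℤ) ∣ b - r).card : ℝ) ≤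
      C * 2 ^ k / (q * k) := by
  obtain ⟨C, hC, y0, h⟩ := ap
  refine ⟨C * 6400 + 1, by positivity, ?_⟩
  filter_upwards [ev (max y0 3 : ℕ) 0 200 (by norm_num), ev (2 * K ^ 2) 3 2 (by norm_num),
    eventually_ge_atTop 400] with k a1 a2 a3 q r hq hs hK
  rw [pow_zero, mul_one] at a1
  have a1' : max y0 3 ≤ 2 ^ (k / 200) := by exact_mod_cast a1
  have k0 : (0 : ℝ) < k := by exact_mod_cast (by omega : 0 < k)
  have q0 : (0 : ℝ) < q := by exact_mod_cast hq
  have hK' : (q : ℝ) ≤ (K * k) ^ 2 := by exact_mod_cast hK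
  have qk : 2 * ((q : ℝ) * k) ≤ 2 ^ (k / 2) := le_trans (by nlinarith) a2
  have b1 := h (2 ^ (k / 200)) ((le_max_left _ _).trans a1') q r (2 ^ (k / 200)) (2 ^ k)
    ((Dy k).filter fun b : ℕ => (q : ℤ) ∣ b - r) hq ((le_max_right _ _).trans a1') le_rfl
    (fun p hp => by have := (Mer.mem_pri.1 hp).1; omega) fun t ht => by
      obtain ⟨c1, c2⟩ := mem_filter.1 ht
      obtain ⟨⟨c3, c4⟩, c5⟩ := mem_Dy.1 c1
      have : 2 ^ (k / 200) < 2 ^ k := Nat.pow_lt_pow_right one_lt_two (by omega)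
      exact ⟨c3, c4, c5, by omega, c2, fun p hp => by have := (Mer.mem_pri.1 hp).1; omega⟩
  refine b1.trans ?_
  have l1 : (k : ℝ) / 800 ≤ Real.log (2 ^ (k / 200) : ℕ) := by
    have c1 := (log2pow (k / 200)).1
    have c2 := div_ge (k := k) (e := 200) (by norm_num) (by omega)
    push_cast at c2
    linarith
  have l2 : 1 ≤ Real.log (2 ^ (k / 200) : ℕ) := by
    have c1 := (log2pow (k / 200)).1
    have c2 : (2 : ℝ) ≤ (k / 200 : ℕ) := by exact_mod_cast (by omega : 2 ≤ k / 200)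
    linarith
  set L := Real.log (2 ^ (k / 200) : ℕ)
  have p1 : (2 : ℝ) ^ (k / 2) * 2 ^ (k / 2) ≤ 2 ^ k := by
    rw [← pow_add]
    exact pow_le_pow_right₀ one_le_two (by omega)
  have p2 : (((2 ^ (k / 200) : ℕ) : ℝ)) ^ 60 ≤ 2 ^ (k / 2) := by
    push_cast
    rw [← pow_mul]
    exact pow_le_pow_right₀ one_le_two (by omega)
  have p0 : (1 : ℝ) ≤ 2 ^ (k / 2) := one_le_pow₀ one_le_two
  have k1 : (1 : ℝ) ≤ k := by exact_mod_cast (by omega : 1 ≤ k)
  have p3 : 2 * (((2 ^ (k / 200) : ℕ) : ℝ)) ^ 60 ≤ 2 ^ k / (q * k) := by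
    rw [le_div_iff₀ (by positivity)]
    nlinarith [mul_le_mul p2 qk (by positivity) (by positivity)]
  have p4 : (((2 ^ k : ℕ) : ℝ)) / q + 2 ≤ 2 * (2 ^ k / q) := by
    have : (2 : ℝ) ≤ 2 ^ k / q := by
      rw [le_div_iff₀ q0]
      nlinarith
    push_cast
    linarith
  have p5 : (1 + L) / L ^ 2 ≤ 1600 / k := by
    rw [div_le_div_iff₀ (by positivity) k0]
    nlinarith
  have p6 := mul_le_mul (mul_le_mul (mul_le_mul_of_nonneg_left hs hC.le) p4 (by positivity)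
    (by positivity)) p5 (by positivity) (by positivity)
  rw [mul_div_assoc]
  refine (add_le_add p6 p3).trans (le_of_eq ?_)
  field_simp
  ring

theorem card_pf {m j : ℕ} (hm : m ≠ 0) (h : m ≤ 2 ^ j) : m.primeFactors.card ≤ j := by
  have a1 : 2 ^ m.primeFactors.card ≤ ∏ p ∈ m.primeFactors, p :=
    pow_card_le_prod _ _ _ fun p hp => (Nat.prime_of_mem_primeFactors hp).two_le
  have a2 := Nat.le_of_dvd (Nat.pos_of_ne_zero hm) (Nat.prod_primeFactors_dvd m)
  exact (Nat.pow_le_pow_iff_right one_lt_two).1 (a1.trans (a2.trans h))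

theorem av (K : ℕ) (hK : 2 ≤ K) : ∃ C : ℝ, 0 < C ∧ ∀ᶠ k : ℕ in atTop, ∀ a : ℕ, a ≤ 2 ^ (K * k) →
    ∑ b ∈ (Dy k).erase a, gg ((b : ℤ) - a).natAbs ≤ C / k * 2 ^ k := by
  obtain ⟨C, hC, h⟩ := bt K
  have hs : Summable fun l : ℕ => 1 / (l : ℝ) ^ (3 / 2 : ℝ) :=
    Real.summable_one_div_nat_rpow.2 (by norm_num)
  have hs0 : 0 ≤ ∑' l : ℕ, 1 / (l : ℝ) ^ (3 / 2 : ℝ) := tsum_nonneg fun _ => by positivity
  refine ⟨C * (2 + ∑' l : ℕ, 1 / (l : ℝ) ^ (3 / 2 : ℝ)), by positivity, ?_⟩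
  filter_upwards [h, eventually_ge_atTop 1] with k hk k1 a ha
  have k0 : (0 : ℝ) < k := by exact_mod_cast k1
  have Kk : 0 < K * k := by positivity
  have pt : ∀ b ∈ (Dy k).erase a, gg ((b : ℤ) - a).natAbs ≤
      2 + ∑ l ∈ pri 0 ((K * k) ^ 2), if (l : ℤ) ∣ b - a then 1 / √(l : ℝ) else 0 := by
    intro b hb
    obtain ⟨b1, b2⟩ := mem_erase.1 hb
    obtain ⟨⟨-, b3⟩, -⟩ := mem_Dy.1 b2
    have m0 : ((b : ℤ) - a).natAbs ≠ 0 := by omega
    have m1 : ((b : ℤ) - a).natAbs ≤ 2 ^ (K * k) := by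
      have : 2 ^ (k + 1) ≤ 2 ^ (K * k) := Nat.pow_le_pow_right two_pos (by nlinarith)
      omega
    rw [gg, ← sum_filter, ← sum_filter_add_sum_filter_not _ fun l => l ≤ (K * k) ^ 2]
    have c1 : ∑ l ∈ ((b : ℤ) - a).natAbs.primeFactors.filter (fun l => l ≤ (K * k) ^ 2),
        1 / √(l : ℝ) ≤ ∑ l ∈ (pri 0 ((K * k) ^ 2)).filter (fun l : ℕ => (l : ℤ) ∣ b - a),
        1 / √(l : ℝ) :=
      sum_le_sum_of_subset_of_nonneg (fun l hl => by
        obtain ⟨d1, d2⟩ := mem_filter.1 hl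
        obtain ⟨d3, d4, -⟩ := Nat.mem_primeFactors.1 d1
        exact mem_filter.2 ⟨Mer.mem_pri.2 ⟨⟨d3.pos, d2⟩, d3⟩, Int.natCast_dvd.2 d4⟩)
        fun _ _ _ => by positivity
    have c2 : ∑ l ∈ ((b : ℤ) - a).natAbs.primeFactors.filter (fun l => ¬l ≤ (K * k) ^ 2),
        1 / √(l : ℝ) ≤ 1 := by
      have d0 : (0 : ℝ) < (K * k : ℕ) := by exact_mod_cast Kk
      refine (sum_le_card_nsmul _ _ (1 / ((K * k : ℕ) : ℝ)) fun l hl =>
        one_div_le_one_div_of_le d0 (Real.le_sqrt_of_sq_le ?_)).trans ?_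
      · exact_mod_cast (not_le.1 (mem_filter.1 hl).2).le
      · rw [nsmul_eq_mul, mul_one_div, div_le_one d0, Nat.cast_le]
        exact (card_filter_le _ _).trans (card_pf m0 m1)
    linarith
  refine (sum_le_sum pt).trans ((sum_le_sum_of_subset_of_nonneg (erase_subset _ _)
    fun b _ _ => add_nonneg zero_le_two (sum_nonneg fun l _ => by positivity)).trans ?_)
  rw [sum_add_distrib, sum_const, nsmul_eq_mul, sum_comm]
  have c1 := hk 1 0 one_pos (by simp [sg, E]) (Nat.one_le_pow _ _ Kk)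
  rw [filter_true_of_mem fun _ _ => by simp] at c1
  have c2 : ∀ l ∈ pri 0 ((K * k) ^ 2), (∑ b ∈ Dy k, if (l : ℤ) ∣ (b : ℤ) - a then 1 / √(l : ℝ) else 0) ≤
      C * 2 ^ k / k * (1 / (l : ℝ) ^ (3 / 2 : ℝ)) := fun l hl => by
    obtain ⟨⟨d1, d2⟩, d3⟩ := Mer.mem_pri.1 hl
    have d4 : (1 : ℝ) ≤ l := by exact_mod_cast d1
    have d5 := hk l a d1 (by
      rw [sg, d3.primeFactors, E, prod_singleton]
      linarith [(div_le_one (by linarith)).2 d4]) d2
    rw [← sum_filter, sum_const, nsmul_eq_mul, show (3 / 2 : ℝ) = 1 + 1 / 2 by norm_num,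
      Real.rpow_add (by linarith), Real.rpow_one, ← Real.sqrt_eq_rpow]
    refine (mul_le_mul_of_nonneg_right d5 (by positivity)).trans (le_of_eq ?_)
    field_simp
  have c3 := sum_le_sum c2
  rw [← mul_sum] at c3
  replace c3 := c3.trans
    (mul_le_mul_of_nonneg_left (hs.sum_le_tsum _ fun _ _ => by positivity) (by positivity))
  refine (add_le_add (mul_le_mul_of_nonneg_right c1 zero_le_two) c3).trans (le_of_eq ?_)
  push_cast
  field_simp

/-- dyadic summation -/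
theorem dy (T I : Finset ℕ) (G : ℕ → ℝ) (κ : ℝ) (hG : ∀ t, 0 ≤ G t)
    (hT : ∀ t ∈ T, t ≠ 0 ∧ Nat.log 2 t ∈ I)
    (h : ∀ k ∈ I, ∑ t ∈ T.filter (fun t => Nat.log 2 t = k), G t ≤ κ * 2 ^ k) :
    ∑ t ∈ T, G t / t ≤ κ * I.card := by
  rw [← sum_fiberwise_of_maps_to fun t ht => (hT t ht).2, mul_comm, ← nsmul_eq_mul]
  refine sum_le_card_nsmul _ _ _ fun k hk => ?_
  refine (sum_le_sum (g := fun t => G t / 2 ^ k) fun t ht => ?_).trans ?_
  · obtain ⟨a1, a2⟩ := mem_filter.1 ht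
    refine div_le_div_of_nonneg_left (hG t) (by positivity) ?_
    have := Nat.pow_log_le_self 2 (hT t a1).1
    rw [a2] at this
    exact_mod_cast this
  · rw [← sum_div, div_le_iff₀ (by positivity)]
    exact h k hk

theorem log_mem {t k : ℕ} (h0 : t ≠ 0) (h : Nat.log 2 t = k) : 2 ^ k ≤ t ∧ t < 2 * 2 ^ k := by
  rw [← pow_succ', ← h]
  exact ⟨Nat.pow_log_le_self 2 h0, Nat.lt_pow_succ_log_self one_lt_two t⟩

/-- the weighted sum over primes between `2 ^ (n / K)` and `2 ^ n` -/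
theorem avs (K : ℕ) (hK : 1 ≤ K) : ∃ C : ℝ, 0 < C ∧ ∀ᶠ n : ℕ in atTop, ∀ a : ℕ, a ≤ 2 ^ n →
    ∀ T I : Finset ℕ, T ⊆ (pri (2 ^ (n / K)) (2 ^ n)).erase a → (∀ t ∈ T, Nat.log 2 t ∈ I) →
      ∑ t ∈ T, gg ((t : ℤ) - a).natAbs / t ≤ C / n * I.card := by
  obtain ⟨C, hC, h⟩ := av (2 * K) (by omega)
  obtain ⟨k0, hk0⟩ := eventually_atTop.1 h
  refine ⟨2 * K * C, by positivity, ?_⟩
  filter_upwards [(Nat.tendsto_div_const_atTop (by omega : K ≠ 0)).eventually_ge_atTop k0,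
    eventually_ge_atTop K] with n a1 a2 a ha T I hT hI
  have K0 : (0 : ℝ) < K := by exact_mod_cast hK
  have n0 : (0 : ℝ) < n := by exact_mod_cast (by omega : 0 < n)
  have hp : ∀ t ∈ T, t ≠ a ∧ 2 ^ (n / K) < t ∧ t.Prime := fun t ht => by
    obtain ⟨b1, b2⟩ := mem_erase.1 (hT ht)
    exact ⟨b1, (Mer.mem_pri.1 b2).1.1, (Mer.mem_pri.1 b2).2⟩
  refine dy T I _ _ (fun t => zero_le_one.trans (one_le_gg _))
    (fun t ht => ⟨(hp t ht).2.2.ne_zero, hI t ht⟩) fun k _ => ?_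
  rcases lt_or_ge k (n / K) with hk | hk
  · rw [sum_eq_zero fun t ht => ?_]
    · positivity
    · obtain ⟨b1, b2⟩ := mem_filter.1 ht
      have := (log_mem (hp t b1).2.2.ne_zero b2).2
      have b3 : 2 ^ (k + 1) ≤ 2 ^ (n / K) := Nat.pow_le_pow_right two_pos hk
      have := (hp t b1).2.1
      omega
  · have b1 : (n : ℝ) / (2 * K) ≤ k := (div_ge hK a2).trans (by exact_mod_cast hk)
    have b2 : n ≤ 2 * K * k := by
      rw [div_le_iff₀' (by positivity)] at b1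
      exact_mod_cast b1
    refine le_trans (sum_le_sum_of_subset_of_nonneg (fun t ht => ?_)
      fun _ _ _ => zero_le_one.trans (one_le_gg _)) ((hk0 k (a1.trans hk) a
        (ha.trans (Nat.pow_le_pow_right two_pos b2))).trans (mul_le_mul_of_nonneg_right ?_
          (by positivity)))
    · obtain ⟨c1, c2⟩ := mem_filter.1 ht
      exact mem_erase.2 ⟨(hp t c1).1, mem_Dy.2 ⟨log_mem (hp t c1).2.2.ne_zero c2, (hp t c1).2.2⟩⟩
    · refine (div_le_div_of_nonneg_left hC.le (by positivity) b1).trans (le_of_eq ?_)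
      field_simp

end Pool.Agent.MP_35c637_nt.OS

end
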