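import Pool.Agent.MP_35c637_nt.os.Avg
import Pool.Agent.MP_a43263_nt.R2.Sw

/-! Many primes `p ≡ 1` have a prime factor of `p - 1` in a given range. -/

set_option autoImplicit false

noncomputable section

namespace Pool.Agent.MP_35c637_nt.OS

open Finset Filter Pool.Agent.MP_a43263_nt.R2

theorem mass {M : ℕ} (hM : 0 < M) : ∀ᶠ k : ℕ in atTop, (2 : ℝ) ^ k / (2 * M.totient * (k + 1)) ≤
    ((Dy k).filter fun p => p ≡ 1 [MOD M]).card := by
  have t1 : Tendsto (fun k : ℕ => (2 : ℝ) ^ (k + 1)) atTop atTop :=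
    (tendsto_pow_atTop_atTop_of_one_lt one_lt_two).comp (tendsto_add_atTop_nat 1)
  filter_upwards [t1.eventually (sw 1 1), eventually_ge_atTop (16 * M)] with k hk k1
  have h0 : (0 : ℝ) < M.totient := by exact_mod_cast Nat.totient_pos.2 hM
  have h1 : (M.totient : ℝ) ≤ M := by exact_mod_cast Nat.totient_le M
  have l1 := log2pow (k + 1)
  push_cast at l1
  have k2 : (16 : ℝ) * M ≤ k := by exact_mod_cast k1
  have hq : (M : ℝ) ≤ Real.log (2 ^ (k + 1)) ^ 1 := by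
    rw [pow_one]
    linarith [l1.1]
  have a1 := hk (2 ^ (k + 1)) M 1 (by positivity) le_rfl hM hq (Nat.coprime_one_left M)
  have a2 := hk (2 ^ k) M 1 (by positivity) (pow_le_pow_right₀ one_le_two (by omega)) hM hq
    (Nat.coprime_one_left M)
  have f : ∀ j : ℕ, ⌊(2 : ℝ) ^ j⌋₊ = 2 ^ j := fun j => by
    rw [show (2 : ℝ) ^ j = (2 ^ j : ℕ) by push_cast; rfl, Nat.floor_natCast]
  rw [f, pow_one] at a1 a2
  have a3 := Sw.pri_diff (2 ^ k) (2 ^ (k + 1)) (Nat.pow_le_pow_right two_pos (by omega))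
    (fun p => p ≡ 1 [MOD M]) fun p => Real.log p
  have a4 : (2 : ℝ) ^ (k + 1) / Real.log (2 ^ (k + 1)) ≤ 2 ^ k / (4 * M.totient) := by
    rw [div_le_div_iff₀ (by linarith [l1.1]) (by positivity), pow_succ (2 : ℝ) k]
    have : (0 : ℝ) < 2 ^ k := by positivity
    rw [pow_succ (2 : ℝ) k] at l1
    nlinarith [l1.1]
  have a5 : ∑ p ∈ (pri (2 ^ k) (2 ^ (k + 1))).filter (fun p => p ≡ 1 [MOD M]), Real.log p ≤
      (((Dy k).filter fun p => p ≡ 1 [MOD M]).card : ℝ) * (k + 1) := by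
    refine (sum_le_card_nsmul _ _ ((k : ℝ) + 1) fun p hp => ?_).trans ?_
    · obtain ⟨⟨-, b2⟩, b3⟩ := Mer.mem_pri.1 (mem_filter.1 hp).1
      refine le_trans (Real.log_le_log (by exact_mod_cast b3.pos) ?_) l1.2
      exact_mod_cast b2
    · rw [nsmul_eq_mul]
      refine mul_le_mul_of_nonneg_right (Nat.cast_le.2 (card_le_card fun p hp => ?_))
        (by positivity)
      obtain ⟨b0, b4⟩ := mem_filter.1 hp
      obtain ⟨⟨b1, b2⟩, b3⟩ := Mer.mem_pri.1 b0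
      have b5 : p ≠ 2 ^ (k + 1) := fun e => by
        have := (e ▸ b3).eq_one_of_pow
        omega
      exact mem_filter.2 ⟨mem_Dy.2 ⟨⟨b1.le, by omega⟩, b3⟩, b4⟩
  have a6 : (2 : ℝ) ^ (k + 1) / M.totient = 4 * (2 ^ k / (2 * M.totient)) := by
    field_simp
    ring
  have a7 : (2 : ℝ) ^ k / M.totient = 2 * (2 ^ k / (2 * M.totient)) := by field_simp
  have a8 : (2 : ℝ) ^ k / (4 * M.totient) = (2 ^ k / (2 * M.totient)) / 2 := by
    field_simp
    ring
  rw [← div_div, div_le_iff₀ (by positivity)]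
  linarith [(abs_le.1 a1).1, (abs_le.1 a2).2]

/-- the condition on the prime -/
def Gd (M A B p : ℕ) : Prop := p ≡ 1 [MOD M] ∧ ∃ a ∈ pri A B, a ∣ p - 1

open Classical in
theorem good : ∃ K : ℕ, 2 ≤ K ∧ ∀ M : ℕ, 0 < M → ∀ᶠ n : ℕ in atTop, ∀ k : ℕ, 208 * n ≤ k →
    k < 216 * n → (2 : ℝ) ^ k / (864 * M.totient * n) ≤
      ((Dy k).filter (Gd M (2 ^ (n / K)) (2 ^ n))).card := by
  obtain ⟨C, hC, y0, h⟩ := ap
  refine ⟨⌈864 * (16 * C + 1)⌉₊ + 2, by omega, fun M hM => ?_⟩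
  set K := ⌈864 * (16 * C + 1)⌉₊ + 2 with hK
  have K1 : 864 * (16 * C + 1) ≤ K := by
    rw [hK]
    push_cast
    linarith [Nat.le_ceil (864 * (16 * C + 1))]
  have K0 : (0 : ℝ) < K := lt_of_lt_of_le (by positivity) K1
  obtain ⟨k0, hk0⟩ := eventually_atTop.1 (mass hM)
  filter_upwards [ev (max (max y0 3) M : ℕ) 0 K (by omega), ev (2 * M * K) 1 1 one_pos,
    eventually_ge_atTop (max k0 K)] with n a1 a2 a3 k k1 k2
  rw [pow_zero, mul_one] at a1
  rw [pow_one, Nat.div_one] at a2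
  have a1' : max (max y0 3) M ≤ 2 ^ (n / K) := by exact_mod_cast a1
  have AB : 2 ^ (n / K) ≤ 2 ^ n := Nat.pow_le_pow_right two_pos (Nat.div_le_self _ _)
  have n1 : 1 ≤ n := by omega
  have n0 : (0 : ℝ) < n := by exact_mod_cast n1
  have M0 : (0 : ℝ) < M := by exact_mod_cast hM
  have h0 : (0 : ℝ) < M.totient := by exact_mod_cast Nat.totient_pos.2 hM
  have h1 : (M.totient : ℝ) ≤ M := by exact_mod_cast Nat.totient_le M
  have b1 := h (2 ^ n) (by omega) M 1 (2 ^ (n / K)) (2 ^ k)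
    (((Dy k).filter fun p => p ≡ 1 [MOD M]).filter fun p => ¬∃ a ∈ pri (2 ^ (n / K)) (2 ^ n), a ∣ p - 1)
    hM (by omega) AB
    (fun p hp => by
      obtain ⟨⟨c1, -⟩, c2⟩ := Mer.mem_pri.1 hp
      exact ⟨fun e => by have := Nat.le_of_dvd hM e; omega, fun e => c2.one_lt.ne' (by
        exact_mod_cast Int.eq_one_of_dvd_one (Int.natCast_nonneg p) e)⟩)
    fun t ht => by
      obtain ⟨c1, c2⟩ := mem_filter.1 ht
      obtain ⟨c3, c4⟩ := mem_filter.1 c1
      obtain ⟨⟨c5, c6⟩, c7⟩ := mem_Dy.1 c3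
      have : 2 ^ n < 2 ^ k := Nat.pow_lt_pow_right one_lt_two (by omega)
      refine ⟨c5, c6, c7, by omega, by exact_mod_cast c4.symm.dvd, fun p hp e => c2 ⟨p, hp, ?_⟩⟩
      rw [← Int.natCast_dvd_natCast, Nat.cast_sub c7.one_le]
      exact_mod_cast e
  have b2 := hk0 k (by omega)
  have b3 := card_filter_add_card_filter_not (s := (Dy k).filter fun p => p ≡ 1 [MOD M])
    fun p => ∃ a ∈ pri (2 ^ (n / K)) (2 ^ n), a ∣ p - 1
  rw [filter_filter] at b3
  have b4 : ((Dy k).filter fun p => p ≡ 1 [MOD M] ∧ ∃ a ∈ pri (2 ^ (n / K)) (2 ^ n), a ∣ p - 1) =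
      (Dy k).filter (Gd M (2 ^ (n / K)) (2 ^ n)) := filter_congr fun _ _ => Iff.rfl
  rw [b4] at b3
  have b5 := congrArg (Nat.cast : ℕ → ℝ) b3
  rw [Nat.cast_add] at b5
  have p0 : (1 : ℝ) ≤ 2 ^ n := one_le_pow₀ one_le_two
  have p1 : (2 : ℝ) ^ (60 * n) * 2 ^ n ≤ 2 ^ k := by
    rw [← pow_add]
    exact pow_le_pow_right₀ one_le_two (by omega)
  have p1' : (1 : ℝ) ≤ 2 ^ (60 * n) := one_le_pow₀ one_le_two
  have K2 : (1 : ℝ) ≤ K := by exact_mod_cast (by omega : 1 ≤ K)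
  have n2 : (1 : ℝ) ≤ n := by exact_mod_cast n1
  have p2 : 2 * (((2 ^ n : ℕ) : ℝ)) ^ 60 ≤ 2 ^ k / (M.totient * K * n) := by
    push_cast
    rw [← pow_mul, mul_comm n, le_div_iff₀ (by positivity)]
    refine le_trans ?_ p1
    have : 2 * (M.totient * K * n : ℝ) ≤ 2 ^ n := by
      have := mul_le_mul_of_nonneg_right h1 (show (0 : ℝ) ≤ K * n by positivity)
      linarith
    nlinarith
  have p3 : (((2 ^ k : ℕ) : ℝ)) / M + 2 ≤ 2 * (2 ^ k / M) := by
    have : (2 : ℝ) ≤ 2 ^ k / M := by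
      rw [le_div_iff₀ M0]
      have c1 : 2 * (M : ℝ) ≤ 2 * M * K * n := by
        rw [mul_assoc (2 * (M : ℝ))]
        exact le_mul_of_one_le_right (by positivity) (one_le_mul_of_one_le_of_one_le K2 n2)
      nlinarith
    push_cast
    linarith
  have p4 : 1 + Real.log (2 ^ (n / K) : ℕ) ≤ 2 * (n / K) := by
    have c1 := (log2pow (n / K)).2
    have c2 : ((n / K : ℕ) : ℝ) ≤ n / K := Nat.cast_div_le
    have c3 : (1 : ℝ) ≤ n / K := by
      rw [le_div_iff₀ K0, one_mul]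
      exact_mod_cast (by omega : K ≤ n)
    linarith
  have p5 : ((n : ℝ) / 2) ^ 2 ≤ Real.log (2 ^ n : ℕ) ^ 2 :=
    pow_le_pow_left₀ (by positivity) (log2pow n).1 2
  have lA := Real.log_natCast_nonneg (2 ^ (n / K))
  have p6 := div_le_div₀ (by positivity) (mul_le_mul (mul_le_mul (mul_le_mul_of_nonneg_left
    (sg_le_tot hM) hC.le) p3 (by positivity) (by positivity)) p4 (by positivity) (by positivity))
    (by positivity) p5
  have p7 := b1.trans (add_le_add p6 p2)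
  have p8 : C * (M / M.totient) * (2 * (2 ^ k / M)) * (2 * (n / K)) / ((n : ℝ) / 2) ^ 2 +
      2 ^ k / (M.totient * K * n) = (16 * C + 1) / K * (2 ^ k / (M.totient * n)) := by
    field_simp
    ring
  have p9 : (16 * C + 1) / K ≤ 1 / 864 := by
    rw [div_le_div_iff₀ K0 (by norm_num)]
    linarith
  rw [p8] at p7
  have q1 := p7.trans (mul_le_mul_of_nonneg_right p9 (by positivity))
  have q2 : (2 : ℝ) ^ k / (2 * M.totient * (216 * n)) ≤ 2 ^ k / (2 * M.totient * (k + 1)) := by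
    have : (k : ℝ) + 1 ≤ 216 * n := by exact_mod_cast k2
    gcongr
  have q3 : (2 : ℝ) ^ k / (2 * M.totient * (216 * n)) = 1 / 432 * (2 ^ k / (M.totient * n)) := by
    field_simp
    ring
  have q4 : (2 : ℝ) ^ k / (864 * M.totient * n) = 1 / 864 * (2 ^ k / (M.totient * n)) := by
    field_simp
  linarith

/-- an edge of the graph -/
def Ed (U : Finset ℕ) (a c : ℕ) : Prop := (a * c + 1).Prime ∧ a * c + 1 ∉ U

open Classical in
/-- the weighted degree -/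
def fd (M A B : ℕ) (U : Finset ℕ) (c : ℕ) : ℝ :=
  ∑ a ∈ pri A B, if Ed U (M * a) c then 1 / (a : ℝ) else 0

theorem fd_nonneg (M A B : ℕ) (U : Finset ℕ) (c : ℕ) : 0 ≤ fd M A B U c :=
  sum_nonneg fun _ _ => by positivity

theorem edge : ∃ K : ℕ, 2 ≤ K ∧ ∀ M : ℕ, 0 < M → ∀ᶠ n : ℕ in atTop, ∀ U : Finset ℕ,
    ∑ p ∈ U, 1 / (p : ℝ) ≤ 1 / (432 * M.totient) → ∃ k : ℕ, 205 * n ≤ k ∧ k < 216 * n ∧
      (M : ℝ) / M.totient / (5184 * n) * 2 ^ k <
        ∑ c ∈ Ico (2 ^ k) (2 * 2 ^ k), fd M (2 ^ (n / K)) (2 ^ n) U c := by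
  classical
  obtain ⟨K, hK, h⟩ := good
  refine ⟨K, hK, fun M hM => ?_⟩
  filter_upwards [h M hM, ev M 0 K (by omega), eventually_ge_atTop 1] with n hn a1 n1 U hU
  rw [pow_zero, mul_one] at a1
  have a1' : M ≤ 2 ^ (n / K) := by exact_mod_cast a1
  have AB : 2 ^ (n / K) ≤ 2 ^ n := Nat.pow_le_pow_right two_pos (Nat.div_le_self _ _)
  have n0 : (0 : ℝ) < n := by exact_mod_cast n1
  have M0 : (0 : ℝ) < M := by exact_mod_cast hM
  have h0 : (0 : ℝ) < M.totient := by exact_mod_cast Nat.totient_pos.2 hM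
  set G := (Ico (2 ^ (208 * n)) (2 ^ (216 * n))).filter
    fun p => p.Prime ∧ Gd M (2 ^ (n / K)) (2 ^ n) p with hG
  have lg : ∀ i j t : ℕ, t ∈ Ico (2 ^ i) (2 ^ j) → t ≠ 0 ∧ Nat.log 2 t ∈ Ico i j := fun i j t ht => by
    obtain ⟨c1, c2⟩ := mem_Ico.1 ht
    have t0 : t ≠ 0 := ((Nat.two_pow_pos i).trans_le c1).ne'
    exact ⟨t0, mem_Ico.2 ⟨Nat.le_log_of_pow_le one_lt_two c1, Nat.log_lt_of_lt_pow t0 c2⟩⟩
  have g1 : 1 / (216 * M.totient : ℝ) ≤ ∑ p ∈ G, 1 / (p : ℝ) := by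
    rw [← sum_fiberwise_of_maps_to fun t ht => (lg _ _ t (mem_filter.1 ht).1).2]
    refine le_trans (le_of_eq ?_) (card_nsmul_le_sum _ _ (1 / (1728 * M.totient * n : ℝ))
      fun k hk => ?_)
    · rw [Nat.card_Ico, show 216 * n - 208 * n = 8 * n by omega, nsmul_eq_mul]
      push_cast
      field_simp
      ring
    · obtain ⟨k1, k2⟩ := mem_Ico.1 hk
      refine le_trans ?_ (sum_le_sum_of_subset_of_nonneg
        (s := (Dy k).filter (Gd M (2 ^ (n / K)) (2 ^ n))) (fun p hp => ?_) fun _ _ _ => by positivity)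
      · refine le_trans ?_ (card_nsmul_le_sum _ _ (1 / (2 * 2 ^ k : ℝ)) fun p hp => ?_)
        · rw [nsmul_eq_mul]
          refine le_trans (le_of_eq ?_) (mul_le_mul_of_nonneg_right (hn k k1 k2) (by positivity))
          field_simp
          ring
        · obtain ⟨⟨-, c1⟩, c2⟩ := mem_Dy.1 (mem_filter.1 hp).1
          exact one_div_le_one_div_of_le (by exact_mod_cast c2.pos) (by exact_mod_cast c1.le)
      · obtain ⟨c0, c3⟩ := mem_filter.1 hp
        obtain ⟨⟨c1, c2⟩, c4⟩ := mem_Dy.1 c0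
        have d1 : 2 ^ (208 * n) ≤ 2 ^ k := Nat.pow_le_pow_right two_pos k1
        have d2 : 2 ^ (k + 1) ≤ 2 ^ (216 * n) := Nat.pow_le_pow_right two_pos k2
        exact mem_filter.2 ⟨mem_filter.2 ⟨mem_Ico.2 ⟨by omega, by omega⟩, c4, c3⟩,
          Nat.log_eq_of_pow_le_of_lt_pow c1 (by omega)⟩
  have g2 : ∑ p ∈ G, 1 / (p : ℝ) ≤ ∑ p ∈ G \ U, 1 / (p : ℝ) + ∑ p ∈ U, 1 / (p : ℝ) := by
    rw [← sum_union sdiff_disjoint]
    exact sum_le_sum_of_subset_of_nonneg (fun p hp => by simp [hp]) fun _ _ _ => by positivity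
  have g3 : ∑ p ∈ G \ U, 1 / (p : ℝ) ≤ 1 / M * ∑ c ∈ Ico (2 ^ (205 * n)) (2 ^ (216 * n)),
      fd M (2 ^ (n / K)) (2 ^ n) U c / c := by
    set EE := (Ico (2 ^ (205 * n)) (2 ^ (216 * n)) ×ˢ pri (2 ^ (n / K)) (2 ^ n)).filter
      fun x => Ed U (M * x.2) x.1 with hE
    have e1 : G \ U ⊆ EE.image fun x => M * x.2 * x.1 + 1 := fun p hp => by
      obtain ⟨c1, c2⟩ := mem_sdiff.1 hp
      obtain ⟨c3, c4, c5, a, c6, c7⟩ := mem_filter.1 c1
      obtain ⟨⟨c8, c9⟩, c10⟩ := Mer.mem_pri.1 c6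
      obtain ⟨d1, d2⟩ := mem_Ico.1 c3
      obtain ⟨c, hc⟩ : M * a ∣ p - 1 := Nat.Coprime.mul_dvd_of_dvd_of_dvd
        (Nat.coprime_of_lt_prime hM.ne' (by omega) c10).symm
        ((Nat.modEq_iff_dvd' c4.one_le).1 c5.symm) c7
      have d3 : M * a * c + 1 = p := by have := c4.one_le; omega
      refine mem_image.2 ⟨(c, a), mem_filter.2 ⟨mem_product.2 ⟨mem_Ico.2 ⟨?_, ?_⟩, c6⟩, ?_⟩, d3⟩
      · by_contra hlt
        have d4 : M * a * c ≤ 2 ^ n * 2 ^ n * 2 ^ (205 * n) :=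
          Nat.mul_le_mul (Nat.mul_le_mul (by omega) c9) (not_le.1 hlt).le
        rw [← pow_add, ← pow_add] at d4
        have d5 : 2 ^ (n + n + 205 * n + 1) ≤ 2 ^ (208 * n) := Nat.pow_le_pow_right two_pos (by omega)
        have d6 : 2 ^ 1 ≤ 2 ^ (n + n + 205 * n) := Nat.pow_le_pow_right two_pos (by omega)
        omega
      · have : c ≤ M * a * c := Nat.le_mul_of_pos_left c (Nat.mul_pos hM c10.pos)
        simp only
        omega
      · exact ⟨d3 ▸ c4, d3 ▸ c2⟩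
    refine (sum_le_sum_of_subset_of_nonneg e1 fun _ _ _ => by positivity).trans
      ((sum_image_le_of_nonneg fun _ _ => by positivity).trans ?_)
    rw [hE, sum_filter, sum_product, mul_sum]
    refine sum_le_sum fun c hc => ?_
    rw [fd, sum_div, mul_sum]
    refine sum_le_sum fun a ha => ?_
    have c0 : (0 : ℝ) < c := by exact_mod_cast Nat.pos_of_ne_zero (lg _ _ c hc).1
    have a0 : (0 : ℝ) < a := by exact_mod_cast (Mer.mem_pri.1 ha).2.pos
    split_ifs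
    · push_cast
      rw [div_div, div_mul_div_comm, one_mul]
      exact one_div_le_one_div_of_le (by positivity) (by linarith)
    · simp
  by_contra hc
  push Not at hc
  have g4 := dy (Ico (2 ^ (205 * n)) (2 ^ (216 * n))) (Ico (205 * n) (216 * n))
    (fd M (2 ^ (n / K)) (2 ^ n) U) (M / M.totient / (5184 * n)) (fd_nonneg _ _ _ _) (lg _ _)
    fun k hk => le_trans (sum_le_sum_of_subset_of_nonneg (fun t ht => mem_Ico.2
      (log_mem (lg _ _ t (mem_filter.1 ht).1).1 (mem_filter.1 ht).2))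
      fun _ _ _ => fd_nonneg _ _ _ _ _) (hc k (mem_Ico.1 hk).1 (mem_Ico.1 hk).2)
  rw [Nat.card_Ico, show 216 * n - 205 * n = 11 * n by omega] at g4
  have g5 := g3.trans (mul_le_mul_of_nonneg_left g4 (by positivity))
  have g6 : 1 / (M : ℝ) * (M / M.totient / (5184 * n) * (11 * n : ℕ)) =
      11 / 5184 * (1 / M.totient) := by
    push_cast
    field_simp
  have g7 : 1 / (216 * M.totient : ℝ) = 1 / 216 * (1 / M.totient) := by field_simp
  have g8 : 1 / (432 * M.totient : ℝ) = 1 / 432 * (1 / M.totient) := by field_simp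
  have g9 : 0 < 1 / (M.totient : ℝ) := by positivity
  linarith

end Pool.Agent.MP_35c637_nt.OS

end
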