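import Pool.Agent.MP_35c637_nt.os.Rel

/-! The two steps at one scale: a bounded relation with a prescribed small value, and a greedy
family of relations with a large total value. -/

set_option autoImplicit false

noncomputable section

namespace Pool.Agent.MP_35c637_nt.OS

open Finset Filter

theorem Out.fine {n M a b D R r : ℕ} {S : Finset ℕ} {σ m : ℝ} (h : Out n M ∅ σ a b D S m)
    (n1 : 1 ≤ n) (σ0 : 0 < σ) (hr : 60 / σ ≤ r) (hR : R = r.factorial) (R1 : R ≤ 2 ^ n)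
    (hG : 20 * (8 * R + 1) / σ * n ^ 2 ≤ 2 ^ n) (τ : ℝ) (hτ : |τ| ≤ 1 / 2 ^ (220 * n)) :
    ∃ (T : Finset ℕ) (v : ℝ), Rl T v ∧ In n M T ∧ T.card ≤ 4 * R ∧ |v - τ| ≤ 1 / 2 ^ (300 * n) := by
  classical
  have D0 : (0 : ℝ) < D := by exact_mod_cast h.D0
  have a0 : (1 : ℝ) ≤ a := by exact_mod_cast h.a1
  have n0 : (0 : ℝ) < n := by exact_mod_cast n1
  have m0 := h.m0 n1
  have R0 : 0 < R := hR ▸ r.factorial_pos
  have R0' : (0 : ℝ) < R := by exact_mod_cast R0
  have rR : r ≤ R := hR ▸ r.self_le_factorial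
  obtain ⟨l, hl⟩ : ∃ l : ℕ, l = 2 ^ (80 * n) := ⟨_, rfl⟩
  have l0 : 0 < l := hl ▸ Nat.two_pow_pos _
  have l0' : (0 : ℝ) < l := by exact_mod_cast l0
  have lD : 2 ^ n * l ≤ D := by
    rw [hl, ← pow_add]
    exact (Nat.pow_le_pow_right two_pos (by omega)).trans h.D1
  have lD' : (2 : ℝ) ^ n * l ≤ D := by exact_mod_cast lD
  have p1 : (1 : ℝ) ≤ 2 ^ n := one_le_pow₀ one_le_two
  obtain ⟨ε, hε⟩ : ∃ ε : ℝ, ε = l / (8 * a * D ^ 2) := ⟨_, rfl⟩
  have ε0 : 0 < ε := by rw [hε]; positivity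
  have ρε : 1 / (a * D : ℝ) / ε = 8 * D / l := by
    rw [hε]
    field_simp
  set cell : ℕ → ℤ := fun c => ⌊hh a b c / ε⌋ with hcell
  set F : ℤ → Finset ℕ := fun i => S.filter fun c => cell c = i with hF
  set N : ℕ := 8 * D / l + 2 with hN
  have N1 : 8 * (D : ℝ) / l + 1 ≤ N := by
    have := Nat.lt_mul_div_succ (8 * D) l0
    have e : 8 * (D : ℝ) ≤ l * ((8 * D / l : ℕ) + 1) := by exact_mod_cast this.le
    rw [← div_le_iff₀' l0'] at e
    rw [hN]
    push_cast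
    linarith
  have Dl : (2 : ℝ) ^ n ≤ D / l := (le_div_iff₀ l0').2 lD'
  have N2 : (N : ℝ) ≤ 10 * (D / l) := by
    have e : ((8 * D / l : ℕ) : ℝ) ≤ (8 * D : ℕ) / l := Nat.cast_div_le
    rw [hN]
    push_cast at e ⊢
    rw [mul_div_assoc] at e
    linarith
  set s0 : ℤ := ⌊(hh a b D - 1 / (a * D)) / ε⌋ with hs0
  have cl : ∀ c, (cell c : ℝ) * ε ≤ hh a b c ∧ hh a b c < (cell c + 1) * ε := fun c =>
    ⟨(le_div_iff₀ ε0).1 (Int.floor_le _), (div_lt_iff₀ ε0).1 (Int.lt_floor_add_one _)⟩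
  have rng : ∀ c ∈ S, cell c ∈ Ico s0 (s0 + N) := fun c hc => by
    obtain ⟨b1, b2⟩ := hh_bd h.a1 h.ab h.D0 le_rfl (h.mem c hc).1 (h.mem c hc).2.1
    have b0 : (D : ℝ) ≤ c := by exact_mod_cast (h.mem c hc).1
    have b3 : hh a b c ≤ hh a b D := by
      linarith [div_nonneg (sub_nonneg.2 b0) (show (0 : ℝ) ≤ 8 * a * D ^ 2 by positivity)]
    refine mem_Ico.2 ⟨Int.floor_le_floor (div_le_div_of_nonneg_right (by linarith) ε0.le), ?_⟩
    rw [hcell, Int.floor_lt]
    have b4 := Int.lt_floor_add_one ((hh a b D - 1 / (a * D)) / ε)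
    rw [← hs0, sub_div, ρε] at b4
    have b5 := div_le_div_of_nonneg_right b3 ε0.le
    push_cast
    linarith
  have fib : ∀ i, ((F i).card : ℝ) ≤ m * l := fun i => by
    rcases (F i).eq_empty_or_nonempty with e | e
    · rw [e, card_empty, Nat.cast_zero]
      positivity
    refine le_trans (Nat.cast_le.2 (card_le_card fun d hd => ?_)) (h.up ((F i).min' e) l hl.ge)
    obtain ⟨b1, b2⟩ := mem_filter.1 hd
    obtain ⟨b3, b4⟩ := mem_filter.1 (min'_mem _ e)
    have b5 := min'_le _ _ hd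
    refine mem_filter.2 ⟨b1, b5, ?_⟩
    have b6 := (hh_bd h.a1 h.ab h.D0 (h.mem _ b3).1 b5 (h.mem d b1).2.1).1
    have b7 := (cl d).1
    have b8 := (cl ((F i).min' e)).2
    rw [b2] at b7
    rw [b4] at b8
    have b9 : ((d : ℝ) - (F i).min' e) / (8 * a * D ^ 2) < l / (8 * a * D ^ 2) := by linarith
    rw [div_lt_div_iff_of_pos_right (by positivity), sub_lt_iff_lt_add'] at b9
    exact_mod_cast b9
  set H := (Ico s0 (s0 + N)).filter fun i => 8 * R + 1 < (F i).card with hH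
  have cnt : (S.card : ℝ) ≤ H.card * (m * l) + N * (8 * R + 1) := by
    rw [card_eq_sum_card_fiberwise (f := cell) (t := Ico s0 (s0 + N)) fun c hc => rng c hc,
      Nat.cast_sum]
    refine (sum_le_sum (g := fun i => (if 8 * R + 1 < (F i).card then m * l else 0) + (8 * R + 1))
      fun i _ => ?_).trans (le_of_eq ?_)
    · split_ifs with e
      · exact (fib i).trans (le_add_of_nonneg_right (by positivity))
      · rw [zero_add]
        exact_mod_cast not_lt.1 e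
    · rw [sum_add_distrib, ← sum_filter, sum_const, sum_const, Int.card_Ico, add_sub_cancel_left,
        Int.toNat_natCast, nsmul_eq_mul, nsmul_eq_mul]
  have ln : (2 : ℝ) ^ n ≤ l := by
    rw [hl]
    push_cast
    exact pow_le_pow_right₀ one_le_two (by omega)
  have c1 : (N : ℝ) * (8 * R + 1) ≤ σ * m * D / 2 := by
    have e1 := hG.trans ln
    rw [div_mul_eq_mul_div, div_le_iff₀ σ0] at e1
    have e2 := (div_le_iff₀ (by positivity)).1 h.m1
    have e3 : 20 * (8 * (R : ℝ) + 1) ≤ σ * m * l := by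
      refine le_of_mul_le_mul_right ?_ (show 0 < (n : ℝ) ^ 2 by positivity)
      nlinarith [mul_le_mul_of_nonneg_left e2 (show 0 ≤ l * σ by positivity)]
    have e4 := mul_le_mul N2 e3 (by positivity) (by positivity)
    have e5 : 10 * ((D : ℝ) / l) * (σ * m * l) = 20 * (σ * m * D / 2) := by
      field_simp
      ring
    linarith
  have c2 : σ * (D / l) / 2 ≤ H.card := by
    refine le_of_mul_le_mul_right ?_ (show 0 < m * l by positivity)
    have e5 : σ * ((D : ℝ) / l) / 2 * (m * l) = σ * m * D / 2 := by field_simp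
    linarith [h.low]
  have c3 : 3 * N < (r + 1) * H.card := by
    have e1 := (div_le_iff₀ σ0).1 hr
    have e2 := mul_le_mul_of_nonneg_left c2 (show (0 : ℝ) ≤ r + 1 by positivity)
    have e3 : 0 < (D : ℝ) / l := by positivity
    have e4 : 3 * (N : ℝ) < (r + 1) * H.card := by
      nlinarith [mul_le_mul_of_nonneg_right e1 e3.le, mul_pos σ0 e3]
    exact_mod_cast e4
  set x : ℤ := ⌊τ / (R * ε)⌋ with hx
  have x1 : (x : ℝ) * (R * ε) ≤ τ := (le_div_iff₀ (by positivity)).1 (Int.floor_le _)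
  have x2 : τ < (x + 1) * (R * ε) := (div_lt_iff₀ (by positivity)).1 (Int.lt_floor_add_one _)
  have c4 : (r : ℤ) * |x| ≤ N := by
    have e1 : |τ| ≤ 1 / (a * D) / 2 := by
      refine hτ.trans ?_
      rw [div_div]
      refine one_div_le_one_div_of_le (by positivity) ?_
      have f1 : a * D * 2 ≤ 2 ^ (2 * n) * 2 ^ (216 * n) :=
        (show a * D * 2 = 2 * a * D by ring).le.trans (Nat.mul_le_mul (h.ab.trans h.bb) h.D2)
      rw [← pow_add] at f1
      exact_mod_cast f1.trans (Nat.pow_le_pow_right two_pos (by omega))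
    have e2 : |(x : ℝ)| * (R * ε) ≤ |τ| + R * ε := by
      rw [← abs_of_pos (show 0 < R * ε by positivity), ← abs_mul,
        abs_of_pos (show 0 < R * ε by positivity), abs_le]
      constructor <;> linarith [le_abs_self τ, neg_abs_le τ, mul_pos R0' ε0]
    have e3 : 1 / (a * D : ℝ) = 8 * (D / l) * ε := by
      rw [← mul_div_assoc, ← ρε]
      field_simp
    have e4 : |(x : ℝ)| * R ≤ 4 * (D / l) + R := by
      refine le_of_mul_le_mul_right ?_ ε0
      linarith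
    have e5 : (R : ℝ) ≤ 2 ^ n := by exact_mod_cast R1
    have e6 : (r : ℝ) ≤ R := by exact_mod_cast rR
    have e7 : (r : ℝ) * |(x : ℝ)| ≤ N := by
      rw [mul_div_assoc] at N1
      nlinarith [mul_le_mul_of_nonneg_right e6 (abs_nonneg (x : ℝ))]
    exact_mod_cast e7
  obtain ⟨j, j1, j2, u, hu, u', hu', hj⟩ := cover H s0 x N r
    (fun i hi => mem_Ico.1 (mem_filter.1 hi).1) c3 c4
  have it : ∀ i ≤ R, ∃ (T : Finset ℕ) (v : ℝ), Rl T v ∧ In n M T ∧ T.card ≤ 4 * i ∧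
      |v - i * (j * x) * ε| ≤ i * ε := by
    intro i hi
    induction i with
    | zero => exact ⟨∅, 0, Rl.zero, fun _ h => absurd h (notMem_empty _), by simp, by simp⟩
    | succ i ih =>
      obtain ⟨T, v, t1, t2, t3, t4⟩ := ih (by omega)
      have b0 : 0 < b := by have := h.a1; have := h.ab; omega
      obtain ⟨c, hc, -, q1, q2⟩ := fresh h.a1 b0 (F u) T 0
        (lt_of_le_of_lt (by omega) (mem_filter.1 hu).2)
      obtain ⟨d, hd, q3, q4, q5⟩ := fresh h.a1 b0 (F u') T c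
        (lt_of_le_of_lt (by omega) (mem_filter.1 hu').2)
      obtain ⟨r1, r2, -, r4⟩ := h.c4 n1 (mem_filter.1 hc).1 (mem_filter.1 hd).1 q3.symm
      refine ⟨_, _, t1.add r1 (disjoint_right.2 fun p hp => ?_), t2.union r2,
        (card_union_le _ _).trans (by omega), ?_⟩
      · simp only [Q4, mem_union, mem_insert, mem_singleton] at hp
        rcases hp with (rfl | rfl) | rfl | rfl <;> assumption
      · have f1 := cl c
        have f2 := cl d
        rw [(mem_filter.1 hc).2] at f1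
        rw [(mem_filter.1 hd).2] at f2
        have f3 : (u : ℝ) - u' = j * x := by exact_mod_cast hj
        have f4 : (j : ℝ) * x * ε = u * ε - u' * ε := by rw [← f3]; ring
        rw [abs_le] at t4 ⊢
        push_cast
        constructor <;> linarith [t4.1, t4.2, f1.1, f1.2, f2.1, f2.2]
  obtain ⟨t, ht⟩ : j ∣ R := hR ▸ Nat.dvd_factorial j1 j2
  have tR : t ≤ R := ht ▸ Nat.le_mul_of_pos_left t j1
  obtain ⟨T, v, t1, t2, t3, t4⟩ := it t tR
  refine ⟨T, v, t1, t2, by omega, ?_⟩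
  have f1 : (t : ℝ) * (j * x) * ε = x * (R * ε) := by
    rw [ht]
    push_cast
    ring
  have f2 : (t : ℝ) * ε ≤ R * ε := mul_le_mul_of_nonneg_right (by exact_mod_cast tR) ε0.le
  have f3 : 2 * (R * ε) ≤ 1 / 2 ^ (300 * n) := by
    rw [hε, ← mul_div_assoc, ← mul_div_assoc, div_le_div_iff₀ (by positivity) (by positivity)]
    have g1 : R * l * 2 ^ (300 * n) ≤ D ^ 2 := by
      refine (Nat.mul_le_mul_right _ (Nat.mul_le_mul_right _ R1)).trans
        (le_trans ?_ (Nat.pow_le_pow_left h.D1 2))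
      rw [hl, ← pow_add, ← pow_add, ← pow_mul]
      exact Nat.pow_le_pow_right two_pos (by omega)
    have g2 : (R : ℝ) * l * 2 ^ (300 * n) ≤ D ^ 2 := by exact_mod_cast g1
    nlinarith [sq_nonneg (D : ℝ)]
  rw [f1, abs_le] at t4
  rw [abs_le]
  constructor <;> linarith [t4.1, t4.2, mul_pos R0' ε0]

/-- the fine step -/
theorem fine : ∃ R : ℕ, ∀ M : ℕ, 0 < M → ∀ᶠ n : ℕ in atTop, ∀ τ : ℝ, |τ| ≤ 1 / 2 ^ (220 * n) →
    ∃ (T : Finset ℕ) (v : ℝ), Rl T v ∧ In n M T ∧ T.card ≤ 4 * R ∧ |v - τ| ≤ 1 / 2 ^ (300 * n) := by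
  obtain ⟨σ, σ0, h⟩ := pair
  refine ⟨⌈60 / σ⌉₊.factorial, fun M hM => ?_⟩
  filter_upwards [h M hM, eventually_ge_atTop 1, ev (⌈60 / σ⌉₊.factorial : ℕ) 0 1 one_pos,
    ev (20 * (8 * (⌈60 / σ⌉₊.factorial : ℕ) + 1) / σ) 2 1 one_pos] with n hn n1 a1 a2 τ hτ
  rw [pow_zero, mul_one, Nat.div_one] at a1
  rw [Nat.div_one] at a2
  obtain ⟨a, b, D, S, m, o⟩ := hn ∅ (by simp)
  exact o.fine n1 σ0 (Nat.le_ceil _) rfl (by exact_mod_cast a1) a2 τ hτ

/-- the coarse step -/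
theorem greedy {M : ℕ} (hM : 0 < M) : ∃ κ : ℝ, 0 < κ ∧ ∀ᶠ n : ℕ in atTop, ∀ t : ℝ, 0 ≤ t →
    ∃ (T : Finset ℕ) (v : ℝ), Rl T v ∧ In n M T ∧ v ≤ t ∧
      (t - 1 / 2 ^ (200 * n) ≤ v ∨ κ ≤ v) := by
  classical
  obtain ⟨σ, σ0, h⟩ := pair
  have h0 : (0 : ℝ) < M.totient := by exact_mod_cast Nat.totient_pos.2 hM
  refine ⟨σ / 64 * (1 / (432 * M.totient)), by positivity, ?_⟩
  filter_upwards [h M hM, eventually_ge_atTop 1, ev (4 / σ) 0 1 one_pos] with n hn n1 a1 t t0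
  rw [pow_zero, mul_one, Nat.div_one] at a1
  obtain ⟨T, hT, hmax⟩ := exists_max_image ((range (2 ^ (220 * n) + 1)).powerset.filter fun T =>
    In n M T ∧ ∃ v, Rl T v ∧ σ / 64 * ∑ p ∈ T, 1 / (p : ℝ) ≤ v ∧ v ≤ t) card
    ⟨∅, mem_filter.2 ⟨empty_mem_powerset _, fun _ h => absurd h (notMem_empty _), 0, Rl.zero,
      by simp, t0⟩⟩
  obtain ⟨-, t1, v, t2, t3, t4⟩ := mem_filter.1 hT
  refine ⟨T, v, t2, t1, t4, ?_⟩
  rcases le_total (∑ p ∈ T, 1 / (p : ℝ)) (1 / (432 * M.totient)) with e | e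
  · left
    obtain ⟨a, b, D, S, m, o⟩ := hn T e
    obtain ⟨T', δ, r1, r2, r3, r4, r5, r6⟩ := o.coarse n1 σ0 a1
    by_contra hc
    have := hmax (T ∪ T') (mem_filter.2 ⟨mem_powerset.2 fun p hp =>
      mem_range.2 (Nat.lt_succ_of_le (t1.union r2 p hp).2.2.2), t1.union r2, _, t2.add r1 r3,
      by rw [sum_union r3]; linarith, by linarith⟩)
    rw [card_union_of_disjoint r3] at this
    have := card_pos.2 r4
    omega
  · exact .inr ((mul_le_mul_of_nonneg_left e (by positivity)).trans t3)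

end Pool.Agent.MP_35c637_nt.OS

end
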