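import Pool.Agent.MP_35c637_nt.os.Edge

/-! Two multipliers with many common neighbours. -/

set_option autoImplicit false

noncomputable section

namespace Pool.Agent.MP_35c637_nt.OS

open Finset Filter Pool.Agent.MP_a43263_nt.R2

structure Out (n M : ℕ) (U : Finset ℕ) (σ : ℝ) (a b D : ℕ) (S : Finset ℕ) (m : ℝ) : Prop where
  da : M ∣ a
  db : M ∣ b
  a1 : 1 ≤ a
  ab : 2 * a ≤ b
  bb : b ≤ 2 ^ (2 * n)
  D1 : 2 ^ (205 * n) ≤ D
  D2 : D ≤ 2 ^ (216 * n)
  mem : ∀ c ∈ S, D ≤ c ∧ c < 2 * D ∧ Ed U a c ∧ Ed U b c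
  up : ∀ s l : ℕ, 2 ^ (80 * n) ≤ l → ((S.filter fun c => s ≤ c ∧ c < s + l).card : ℝ) ≤ m * l
  low : σ * m * D ≤ S.card
  m1 : 1 / (n : ℝ) ^ 2 ≤ m

theorem upb (K : ℕ) (hK : 2 ≤ K) : ∃ C : ℝ, 1 ≤ C ∧ ∀ M : ℕ, 0 < M → ∀ᶠ n : ℕ in atTop, ∀ a b : ℕ,
    a ∈ pri (2 ^ (n / K)) (2 ^ n) → b.Prime → a < b → ∀ (s l : ℕ) (T : Finset ℕ), 2 ^ (80 * n) ≤ l →
    (∀ c ∈ T, s ≤ c ∧ c < s + l ∧ 1 ≤ c ∧ (M * a * c + 1).Prime ∧ (M * b * c + 1).Prime) →
    (T.card : ℝ) ≤ C * (M / M.totient) ^ 2 * sg (b - a) / n ^ 2 * l := by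
  obtain ⟨C, hC, y0, h⟩ := tw
  refine ⟨16 * K ^ 2 * C + 1, le_add_of_nonneg_left (by positivity), fun M hM => ?_⟩
  filter_upwards [ev y0 0 K (by omega), ev 2 2 1 one_pos, eventually_ge_atTop K]
    with n a1 a2 a3 a b ha hb hab s l T hl hT
  rw [pow_zero, mul_one] at a1
  rw [Nat.div_one] at a2
  obtain ⟨⟨c1, -⟩, c2⟩ := Mer.mem_pri.1 ha
  refine (h (2 ^ (n / K)) (by exact_mod_cast a1) M a b hM c2 hb c1 hab s l T hT).trans ?_
  have n0 : (0 : ℝ) < n := by exact_mod_cast (by omega : 0 < n)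
  have K0 : (0 : ℝ) < K := by exact_mod_cast (by omega : 0 < K)
  have l1 : (n : ℝ) / (2 * K) / 2 ≤ Real.log (2 ^ (n / K) : ℕ) :=
    le_trans (by linarith [div_ge (show 0 < K by omega) a3]) (log2pow (n / K)).1
  have g1 := sg_le_tot hM
  have g2 := one_le_sg M
  have g3 := one_le_sg (b - a)
  have p1 := div_le_div₀ (by positivity) (mul_le_mul_of_nonneg_right (mul_le_mul_of_nonneg_right
    (mul_le_mul_of_nonneg_left (pow_le_pow_left₀ (by linarith) g1 2) hC.le)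
      (by linarith : 0 ≤ sg (b - a))) (Nat.cast_nonneg l)) (by positivity)
    (pow_le_pow_left₀ (by positivity) l1 2)
  have p2 : 2 * (((2 ^ (n / K) : ℕ) : ℝ)) ^ 60 ≤ (M / M.totient) ^ 2 * sg (b - a) / n ^ 2 * l := by
    have d1 : (((2 ^ (n / K) : ℕ) : ℝ)) ^ 60 * 2 ^ n ≤ l := by
      have : (2 ^ (n / K)) ^ 60 * 2 ^ n ≤ l := by
        rw [← pow_mul, ← pow_add]
        have := Nat.div_le_self n K
        exact (Nat.pow_le_pow_right two_pos (by omega)).trans hl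
      exact_mod_cast this
    have d2 : (1 : ℝ) ≤ (M / M.totient) ^ 2 * sg (b - a) :=
      one_le_mul_of_one_le_of_one_le (one_le_pow₀ (g2.trans g1)) g3
    rw [div_mul_eq_mul_div, le_div_iff₀ (by positivity)]
    have d3 := mul_le_mul_of_nonneg_left a2
      (show (0 : ℝ) ≤ (((2 ^ (n / K) : ℕ) : ℝ)) ^ 60 by positivity)
    have d4 := mul_le_mul_of_nonneg_right d2 (Nat.cast_nonneg (α := ℝ) l)
    linarith
  refine (add_le_add p1 p2).trans (le_of_eq ?_)
  field_simp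
  ring

theorem pair : ∃ σ : ℝ, 0 < σ ∧ ∀ M : ℕ, 0 < M → ∀ᶠ n : ℕ in atTop, ∀ U : Finset ℕ,
    ∑ p ∈ U, 1 / (p : ℝ) ≤ 1 / (432 * M.totient) → ∃ a b D S m, Out n M U σ a b D S m := by
  classical
  obtain ⟨K, hK, he⟩ := edge
  obtain ⟨C4, h4, hu⟩ := upb K hK
  obtain ⟨C2, h2, hs⟩ := sg_le_gg
  obtain ⟨C3, h3, hv⟩ := avs K (by omega)
  obtain ⟨μ, hμ, μ0⟩ : ∃ μ : ℝ, μ = 1 / 5184 ∧ 0 < μ := ⟨_, rfl, by norm_num⟩
  have h4' : 0 < C4 := by linarith
  refine ⟨μ ^ 2 / (16 * C4 * C2 * C3 ^ 2), by positivity, fun M hM => ?_⟩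
  set σ := μ ^ 2 / (16 * C4 * C2 * C3 ^ 2) with hσ
  have σ0 : 0 < σ := by positivity
  filter_upwards [he M hM, hu M hM, hv, ev M 0 1 one_pos, ev (8 * C3 / μ ^ 2) 2 K (by omega),
    eventually_ge_atTop 1, (tendsto_natCast_atTop_atTop (R := ℝ)).eventually_ge_atTop
      (24 * C3 ^ 2 * C4 * C2 / μ ^ 2)] with n he hu hv a1 a2 n1 a3 U hU
  rw [pow_zero, mul_one, Nat.div_one] at a1
  have a1' : M ≤ 2 ^ n := by exact_mod_cast a1
  obtain ⟨k, k1, k2, hk⟩ := he U hU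
  by_contra hc
  have n0 : (0 : ℝ) < n := by exact_mod_cast n1
  have n2 : (1 : ℝ) ≤ n := by exact_mod_cast n1
  set Γ : ℝ := M / M.totient with hΓ
  have Γ1 : 1 ≤ Γ := (one_le_sg M).trans (sg_le_tot hM)
  set P := pri (2 ^ (n / K)) (2 ^ n) with hP
  set D := 2 ^ k with hD
  have D0 : 0 < D := Nat.two_pow_pos k
  have D1 : 2 ^ (80 * n) ≤ D := Nat.pow_le_pow_right two_pos (by omega)
  set S : ℕ → ℕ → Finset ℕ := fun a b =>
    (Ico D (2 * D)).filter fun c => Ed U (M * a) c ∧ Ed U (M * b) c with hS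
  have sym : ∀ a b, S a b = S b a := fun a b => filter_congr fun _ _ => and_comm
  have up : ∀ a ∈ P, ∀ b ∈ P, a < b → ∀ s l : ℕ, 2 ^ (80 * n) ≤ l →
      (((S a b).filter fun c => s ≤ c ∧ c < s + l).card : ℝ) ≤
        C4 * Γ ^ 2 * sg (b - a) / n ^ 2 * l := fun a ha b hb hab s l hl =>
    hu a b ha (Mer.mem_pri.1 hb).2 hab s l _ hl fun c hc => by
      obtain ⟨c1, c2, c3⟩ := mem_filter.1 hc
      obtain ⟨c4, c5, c6⟩ := mem_filter.1 c1
      exact ⟨c2, c3, D0.trans_le (mem_Ico.1 c4).1, c5.1, c6.1⟩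
  have lt : ∀ a ∈ P, ∀ b ∈ P, a < b → ((S a b).card : ℝ) ≤
      (σ + if 2 * a ≤ b then 0 else 1) * (C4 * Γ ^ 2 * C2 / n ^ 2 * D * gg (b - a)) := by
    intro a ha b hb hab
    have e1 : C4 * Γ ^ 2 * sg (b - a) / n ^ 2 * D ≤ C4 * Γ ^ 2 * C2 / n ^ 2 * D * gg (b - a) := by
      refine le_trans (le_of_eq ?_) ((mul_le_mul_of_nonneg_left (hs (b - a))
        (show 0 ≤ C4 * Γ ^ 2 / n ^ 2 * D by positivity)).trans (le_of_eq ?_)) <;> ring
    have e0 : 0 ≤ C4 * Γ ^ 2 * sg (b - a) / n ^ 2 * D := by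
      have := one_le_sg (b - a)
      positivity
    split_ifs with h
    · rw [add_zero]
      refine le_trans (le_of_not_ge fun hh => hc ⟨M * a, M * b, D, S a b,
        C4 * Γ ^ 2 * sg (b - a) / n ^ 2, ?_⟩) (mul_le_mul_of_nonneg_left e1 σ0.le)
      refine ⟨dvd_mul_right _ _, dvd_mul_right _ _, Nat.mul_pos hM (Mer.mem_pri.1 ha).2.pos,
        by nlinarith, ?_, Nat.pow_le_pow_right two_pos k1, Nat.pow_le_pow_right two_pos k2.le,
        fun c hc => ?_, up a ha b hb hab, by rwa [mul_assoc], ?_⟩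
      · rw [two_mul, pow_add]
        exact Nat.mul_le_mul a1' (Mer.mem_pri.1 hb).1.2
      · obtain ⟨c4, c5, c6⟩ := mem_filter.1 hc
        exact ⟨(mem_Ico.1 c4).1, (mem_Ico.1 c4).2, c5, c6⟩
      · exact div_le_div_of_nonneg_right (one_le_mul_of_one_le_of_one_le
          (one_le_mul_of_one_le_of_one_le h4 (one_le_pow₀ Γ1)) (one_le_sg _)) (by positivity)
    · have e2 := up a ha b hb hab D D D1
      rw [filter_true_of_mem fun c hc => by
        have := mem_Ico.1 (mem_filter.1 hc).1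
        omega] at e2
      nlinarith [mul_nonneg σ0.le (e0.trans e1)]
  set Z : ℝ := C4 * Γ ^ 2 * C2 / n ^ 2 * D with hZ
  have Z0 : 0 ≤ Z := by positivity
  have ne : ∀ a ∈ P, ∀ b ∈ P.erase a, ((S a b).card : ℝ) ≤
      (σ + if Nat.log 2 b ∈ Icc (Nat.log 2 a - 1) (Nat.log 2 a + 1) then 1 else 0) *
        (Z * gg ((b : ℤ) - a).natAbs) := by
    intro a ha b hb
    obtain ⟨b1, b2⟩ := mem_erase.1 hb
    have a0 := (Mer.mem_pri.1 ha).2.ne_zero
    have b0 := (Mer.mem_pri.1 b2).2.ne_zero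
    have la := Nat.log_mul_base one_lt_two a0
    have lb := Nat.log_mul_base one_lt_two b0
    have g0 : 0 ≤ Z * gg ((b : ℤ) - a).natAbs := mul_nonneg Z0 (zero_le_one.trans (one_le_gg _))
    rcases lt_or_gt_of_ne b1 with h | h
    · rw [sym]
      have e := lt b b2 a ha h
      rw [show a - b = ((b : ℤ) - a).natAbs by omega] at e
      refine e.trans (mul_le_mul_of_nonneg_right (add_le_add le_rfl ?_) g0)
      split_ifs with h1 h2 h2 <;> try norm_num
      have c1 := Nat.log_mono_right (b := 2) h.le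
      have c2 := Nat.log_mono_right (b := 2) (show a ≤ b * 2 by omega)
      exact h2 (mem_Icc.2 ⟨by omega, by omega⟩)
    · have e := lt a ha b b2 h
      rw [show b - a = ((b : ℤ) - a).natAbs by omega] at e
      refine e.trans (mul_le_mul_of_nonneg_right (add_le_add le_rfl ?_) g0)
      split_ifs with h1 h2 h2 <;> try norm_num
      have c1 := Nat.log_mono_right (b := 2) h.le
      have c2 := Nat.log_mono_right (b := 2) (show b ≤ a * 2 by omega)
      exact h2 (mem_Icc.2 ⟨by omega, by omega⟩)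
  have all : ∀ a : ℕ, a ≤ 2 ^ n → ∑ t ∈ P.erase a, gg ((t : ℤ) - a).natAbs / t ≤ 2 * C3 := by
    intro a ha
    refine (hv a ha _ (range (n + 1)) Subset.rfl fun t ht => ?_).trans ?_
    · have := Nat.log_mono_right (b := 2) (Mer.mem_pri.1 (mem_erase.1 ht).2).1.2
      rw [Nat.log_pow one_lt_two] at this
      exact mem_range.2 (by omega)
    · rw [card_range, div_mul_eq_mul_div, div_le_iff₀ n0]
      push_cast
      nlinarith
  have s0 : ∑ a ∈ P, 1 / (a : ℝ) ≤ 2 * C3 := by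
    refine le_trans ?_ (all 0 (Nat.zero_le _))
    rw [erase_eq_of_notMem fun h => (Mer.mem_pri.1 h).2.ne_zero rfl]
    exact sum_le_sum fun t _ => div_le_div_of_nonneg_right (one_le_gg _) (Nat.cast_nonneg t)
  have row : ∀ a ∈ P, ∑ b ∈ P, 1 / (b : ℝ) * (S a b).card ≤
      D / 2 ^ (n / K) + Z * (σ * (2 * C3) + C3 / n * 3) := by
    intro a ha
    obtain ⟨⟨c1, c2⟩, c3⟩ := Mer.mem_pri.1 ha
    rw [← add_sum_erase _ _ ha]
    refine add_le_add ?_ ?_
    · have d1 : (S a a).card ≤ D := (card_filter_le _ _).trans (by rw [Nat.card_Ico]; omega)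
      rw [one_div_mul_eq_div]
      exact div_le_div₀ (Nat.cast_nonneg D) (by exact_mod_cast d1) (by positivity)
        (by exact_mod_cast c1.le)
    · have d1 := hv a c2 ((P.erase a).filter fun b =>
        Nat.log 2 b ∈ Icc (Nat.log 2 a - 1) (Nat.log 2 a + 1)) _ (filter_subset _ _)
        fun t ht => (mem_filter.1 ht).2
      have d2 : ((Icc (Nat.log 2 a - 1) (Nat.log 2 a + 1)).card : ℝ) ≤ 3 := by
        rw [Nat.card_Icc]
        exact_mod_cast (by omega)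
      have d3 := add_le_add (mul_le_mul_of_nonneg_left (all a c2) σ0.le)
        (d1.trans (mul_le_mul_of_nonneg_left d2 (by positivity)))
      refine le_trans ?_ (mul_le_mul_of_nonneg_left d3 Z0)
      rw [sum_filter, mul_sum, ← sum_add_distrib, mul_sum]
      refine sum_le_sum fun b hb => (mul_le_mul_of_nonneg_left (ne a ha b hb)
        (by positivity)).trans (le_of_eq ?_)
      split_ifs <;> ring
  have sq : ∑ c ∈ Ico D (2 * D), fd M (2 ^ (n / K)) (2 ^ n) U c ^ 2 =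
      ∑ a ∈ P, 1 / (a : ℝ) * ∑ b ∈ P, 1 / (b : ℝ) * (S a b).card := by
    simp only [fd, sq, sum_mul_sum]
    simp only [hS, card_filter, mul_sum, Nat.cast_sum]
    rw [sum_comm]
    refine sum_congr rfl fun a _ => ?_
    rw [sum_comm]
    refine sum_congr rfl fun b _ => sum_congr rfl fun c _ => ?_
    by_cases e1 : Ed U (M * a) c <;> by_cases e2 : Ed U (M * b) c <;> simp [e1, e2]
  have cs := sq_sum_le_card_mul_sum_sq (s := Ico D (2 * D)) (f := fd M (2 ^ (n / K)) (2 ^ n) U)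
  rw [Nat.card_Ico, show 2 * D - D = D by omega, sq] at cs
  have tot : ∑ a ∈ P, 1 / (a : ℝ) * ∑ b ∈ P, 1 / (b : ℝ) * (S a b).card ≤
      2 * C3 * (D / 2 ^ (n / K) + Z * (σ * (2 * C3) + C3 / n * 3)) := by
    refine (sum_le_sum fun a ha => mul_le_mul_of_nonneg_left (row a ha) (by positivity)).trans ?_
    rw [← sum_mul]
    exact mul_le_mul_of_nonneg_right s0 (by positivity)
  have D0' : (0 : ℝ) < D := by exact_mod_cast D0
  have hk' : Γ * μ / n * D < ∑ c ∈ Ico D (2 * D), fd M (2 ^ (n / K)) (2 ^ n) U c := by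
    refine lt_of_eq_of_lt ?_ hk
    rw [hμ, hD]
    push_cast
    field_simp
  have f1 := (pow_lt_pow_left₀ hk' (by positivity) two_ne_zero).trans_le
    (cs.trans (mul_le_mul_of_nonneg_left tot D0'.le))
  set W : ℝ := (Γ * μ / n * D) ^ 2 with hW
  have W0 : 0 < W := by positivity
  have f2 : D * (2 * C3 * (D / 2 ^ (n / K))) ≤ W / 4 := by
    have d1 : (D : ℝ) / 2 ^ (n / K) ≤ D / (8 * C3 / μ ^ 2 * n ^ 2) :=
      div_le_div_of_nonneg_left D0'.le (by positivity) a2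
    have d2 : D * (2 * C3 * (D / (8 * C3 / μ ^ 2 * n ^ 2))) = W / 4 / Γ ^ 2 := by
      rw [hW]
      field_simp
      ring
    refine le_trans (by gcongr) (d2.le.trans (div_le_self (by positivity) (one_le_pow₀ Γ1)))
  have f3 : D * (2 * C3 * (Z * (σ * (2 * C3)))) = W / 4 := by
    rw [hW, hZ, hσ]
    field_simp
    ring
  have f4 : D * (2 * C3 * (Z * (C3 / n * 3))) ≤ W / 4 := by
    have d1 : C3 / n ≤ C3 / (24 * C3 ^ 2 * C4 * C2 / μ ^ 2) :=
      div_le_div_of_nonneg_left h3.le (by positivity) a3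
    have d2 : D * (2 * C3 * (Z * (C3 / (24 * C3 ^ 2 * C4 * C2 / μ ^ 2) * 3))) = W / 4 := by
      rw [hW, hZ]
      field_simp
      ring
    refine le_trans (by gcongr) d2.le
  linarith

end Pool.Agent.MP_35c637_nt.OS

end
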