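import Pool.Agent.MP_35c637_nt.os.Pair

/-! Exact relations between shifted primes with a prescribed ratio at one scale. -/

set_option autoImplicit false

noncomputable section

namespace Pool.Agent.MP_35c637_nt.OS

open Finset Filter

def Rl (S : Finset ℕ) (v : ℝ) : Prop := ∃ U W : Finset ℕ, Disjoint U W ∧ U ∪ W = S ∧
  ∏ p ∈ U, (p - 1) = ∏ p ∈ W, (p - 1) ∧ v = ∑ p ∈ U, Real.log p - ∑ p ∈ W, Real.log p

def In (n M : ℕ) (S : Finset ℕ) : Prop :=
  ∀ p ∈ S, p.Prime ∧ p ≡ 1 [MOD M] ∧ 2 ^ (200 * n) < p ∧ p ≤ 2 ^ (220 * n)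

theorem Rl.zero : Rl ∅ 0 := ⟨∅, ∅, by simp, by simp, rfl, by simp⟩

theorem Rl.add {S S' : Finset ℕ} {v v' : ℝ} (h : Rl S v) (h' : Rl S' v') (d : Disjoint S S') :
    Rl (S ∪ S') (v + v') := by
  obtain ⟨U, W, a1, rfl, a3, rfl⟩ := h
  obtain ⟨U', W', b1, rfl, b3, rfl⟩ := h'
  simp only [disjoint_union_left, disjoint_union_right] at d
  refine ⟨U ∪ U', W ∪ W', ?_, union_union_union_comm _ _ _ _, ?_, ?_⟩
  · simp only [disjoint_union_left, disjoint_union_right]
    exact ⟨⟨a1, d.1.2.symm⟩, d.2.1, b1⟩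
  · rw [prod_union d.1.1, prod_union d.2.2, a3, b3]
  · rw [sum_union d.1.1, sum_union d.2.2]
    ring

theorem In.union {n M : ℕ} {S S' : Finset ℕ} (h : In n M S) (h' : In n M S') : In n M (S ∪ S') :=
  fun p hp => (mem_union.1 hp).elim (h p) (h' p)

def hh (a b c : ℕ) : ℝ := Real.log (a * c + 1 : ℕ) - Real.log (b * c + 1 : ℕ)

def Q4 (a b c d : ℕ) : Finset ℕ := {a * c + 1, b * d + 1} ∪ {a * d + 1, b * c + 1}

theorem hh_bd {a b D c d : ℕ} (a1 : 1 ≤ a) (ab : 2 * a ≤ b) (D0 : 0 < D) (h1 : D ≤ c) (h2 : c ≤ d)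
    (h3 : d < 2 * D) : ((d : ℝ) - c) / (8 * a * D ^ 2) ≤ hh a b c - hh a b d ∧
      hh a b c - hh a b d ≤ 1 / (a * D) := by
  have a1' : (1 : ℝ) ≤ a := by exact_mod_cast a1
  have ab' : 2 * (a : ℝ) ≤ b := by exact_mod_cast ab
  have D0' : (0 : ℝ) < D := by exact_mod_cast D0
  have h1' : (D : ℝ) ≤ c := by exact_mod_cast h1
  have h2' : (c : ℝ) ≤ d := by exact_mod_cast h2
  have h3' : (d : ℝ) + 1 ≤ 2 * D := by exact_mod_cast h3
  have p1 : (0 : ℝ) < a * c + 1 := by positivity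
  have p2 : (0 : ℝ) < b * d + 1 := by positivity
  have p3 : (0 : ℝ) < a * d + 1 := by positivity
  have p4 : (0 : ℝ) < b * c + 1 := by positivity
  have e : hh a b c - hh a b d =
      Real.log ((a * c + 1) * (b * d + 1) / ((a * d + 1) * (b * c + 1))) := by
    rw [Real.log_div (by positivity) (by positivity), Real.log_mul p1.ne' p2.ne',
      Real.log_mul p3.ne' p4.ne', hh, hh]
    push_cast
    ring
  rw [e]
  constructor
  · refine le_trans ?_ (Real.one_sub_inv_le_log_of_pos (by positivity))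
    rw [inv_div, one_sub_div (by positivity), show ((a : ℝ) * c + 1) * (b * d + 1) -
      (a * d + 1) * (b * c + 1) = (b - a) * (d - c) by ring]
    have q1 : (a : ℝ) * c + 1 ≤ 2 * a * D := by nlinarith
    have q2 : (b : ℝ) * d + 1 ≤ 2 * b * D := by nlinarith
    refine le_trans (le_of_eq ?_) (div_le_div₀ (mul_nonneg (by linarith) (by linarith))
      (mul_le_mul_of_nonneg_right (show (b : ℝ) / 2 ≤ b - a by linarith) (by linarith))
      (by positivity) (mul_le_mul q1 q2 p2.le (by positivity)))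
    have : (0 : ℝ) < b := by linarith
    field_simp
    ring
  · refine (Real.log_le_sub_one_of_pos (by positivity)).trans ?_
    rw [div_sub_one (by positivity), show ((a : ℝ) * c + 1) * (b * d + 1) -
      (a * d + 1) * (b * c + 1) = (b - a) * (d - c) by ring]
    have b0 : (0 : ℝ) < b := by linarith
    have q1 : (a : ℝ) * D ≤ a * d + 1 := by nlinarith
    have q2 : (b : ℝ) * D ≤ b * c + 1 := by nlinarith
    refine (div_le_div₀ (by positivity) (mul_le_mul (show (b : ℝ) - a ≤ b by linarith)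
      (show (d : ℝ) - c ≤ D by linarith) (by linarith) b0.le) (by positivity)
      (mul_le_mul q1 q2 (by positivity) p3.le)).trans (le_of_eq ?_)
    field_simp

section

variable {n M a b D : ℕ} {U S : Finset ℕ} {σ m : ℝ}

theorem Out.D0 (h : Out n M U σ a b D S m) : 0 < D := (Nat.two_pow_pos _).trans_le h.D1

theorem Out.c4 (h : Out n M U σ a b D S m) (n1 : 1 ≤ n) {c d : ℕ} (hc : c ∈ S) (hd : d ∈ S)
    (ne : c ≠ d) : Rl (Q4 a b c d) (hh a b c - hh a b d) ∧ In n M (Q4 a b c d) ∧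
      (∀ p ∈ Q4 a b c d, p ∉ U ∧ a * D ≤ p) ∧ (Q4 a b c d).card ≤ 4 := by
  have a1 := h.a1
  have ab := h.ab
  have lt : ∀ x ∈ S, ∀ y ∈ S, a * x < b * y := fun x hx y hy => by
    have e1 := Nat.mul_lt_mul_of_pos_left (h.mem x hx).2.1 a1
    have e2 := Nat.mul_le_mul ab (h.mem y hy).1
    nlinarith
  have n1' : a * c ≠ a * d := fun e => ne (Nat.eq_of_mul_eq_mul_left a1 e)
  have n2' : b * c ≠ b * d := fun e => ne (Nat.eq_of_mul_eq_mul_left (by omega) e)
  have l1 := lt c hc d hd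
  have l2 := lt d hd c hc
  have l3 := lt c hc c hc
  have l4 := lt d hd d hd
  have one : ∀ x y : ℕ, M ∣ x → a ≤ x → x ≤ b → y ∈ S → Ed U x y →
      ((x * y + 1).Prime ∧ x * y + 1 ≡ 1 [MOD M] ∧ 2 ^ (200 * n) < x * y + 1 ∧
        x * y + 1 ≤ 2 ^ (220 * n)) ∧ x * y + 1 ∉ U ∧ a * D ≤ x * y + 1 := by
    intro x y e1 e2 e3 hy e4
    obtain ⟨c1, c2, -⟩ := h.mem y hy
    have f1 : a * D ≤ x * y := Nat.mul_le_mul e2 c1
    have f2 : D ≤ a * D := Nat.le_mul_of_pos_left D a1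
    have f3 : 2 ^ (200 * n) ≤ 2 ^ (205 * n) := Nat.pow_le_pow_right two_pos (by omega)
    have f4 : x * y ≤ 2 ^ (2 * n) * (2 * 2 ^ (216 * n)) :=
      Nat.mul_le_mul (e3.trans h.bb) (by have := h.D2; omega)
    rw [← pow_succ', ← pow_add] at f4
    have f5 : 2 ^ (2 * n + (216 * n + 1) + 1) ≤ 2 ^ (220 * n) := Nat.pow_le_pow_right two_pos (by omega)
    have f6 := Nat.two_pow_pos (2 * n + (216 * n + 1))
    have := h.D1
    exact ⟨⟨e4.1, ((Nat.modEq_iff_dvd' (by omega)).2 (by simpa using e1.mul_right y)).symm,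
      by omega, by omega⟩, e4.2, by omega⟩
  have all : ∀ p ∈ Q4 a b c d, (p.Prime ∧ p ≡ 1 [MOD M] ∧ 2 ^ (200 * n) < p ∧ p ≤ 2 ^ (220 * n)) ∧
      p ∉ U ∧ a * D ≤ p := by
    intro p hp
    simp only [Q4, mem_union, mem_insert, mem_singleton] at hp
    rcases hp with (rfl | rfl) | rfl | rfl
    · exact one a c h.da le_rfl (by omega) hc (h.mem c hc).2.2.1
    · exact one b d h.db (by omega) le_rfl hd (h.mem d hd).2.2.2
    · exact one a d h.da le_rfl (by omega) hd (h.mem d hd).2.2.1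
    · exact one b c h.db (by omega) le_rfl hc (h.mem c hc).2.2.2
  refine ⟨⟨_, _, ?_, rfl, ?_, ?_⟩, fun p hp => (all p hp).1, fun p hp => (all p hp).2,
    (card_union_le _ _).trans (add_le_add card_le_two card_le_two)⟩
  · simp only [disjoint_insert_left, disjoint_singleton_left, mem_insert, mem_singleton]
    omega
  · rw [prod_pair (by omega), prod_pair (by omega)]
    simp only [Nat.add_sub_cancel]
    ring
  · rw [sum_pair (by omega), sum_pair (by omega), hh, hh]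
    ring

theorem Out.m0 (h : Out n M U σ a b D S m) (n1 : 1 ≤ n) : 0 < m :=
  lt_of_lt_of_le (by positivity) h.m1

/-- a relation of size comparable with the mass of its primes -/
theorem Out.coarse (h : Out n M U σ a b D S m) (n1 : 1 ≤ n) (σ0 : 0 < σ) (hn : 4 / σ ≤ 2 ^ n) :
    ∃ (T : Finset ℕ) (δ : ℝ), Rl T δ ∧ In n M T ∧ Disjoint U T ∧ T.Nonempty ∧
      σ / 64 * ∑ p ∈ T, 1 / (p : ℝ) ≤ δ ∧ δ ≤ 1 / 2 ^ (200 * n) := by
  have D0 : (0 : ℝ) < D := by exact_mod_cast h.D0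
  have a0 : (1 : ℝ) ≤ a := by exact_mod_cast h.a1
  have m0 := h.m0 n1
  have D1 : (2 : ℝ) ^ (205 * n) ≤ D := by exact_mod_cast h.D1
  have e1 : 2 * (2 : ℝ) ^ (80 * n) ≤ σ * D / 2 := by
    have c1 : (2 : ℝ) ^ n * 2 ^ (80 * n) ≤ 2 ^ (205 * n) := by
      rw [← pow_add]
      exact pow_le_pow_right₀ one_le_two (by omega)
    rw [div_le_iff₀' σ0] at hn
    have c2 := mul_le_mul_of_nonneg_right hn (show (0 : ℝ) ≤ 2 ^ (80 * n) by positivity)
    have c3 := mul_le_mul_of_nonneg_left (c1.trans D1) σ0.le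
    linarith
  have e2 : (1 : ℝ) ≤ 2 ^ (80 * n) := one_le_pow₀ one_le_two
  have hS : S.Nonempty := card_pos.1 (by
    have : (0 : ℝ) < S.card := lt_of_lt_of_le (by positivity) h.low
    exact_mod_cast this)
  have l1 := Nat.le_ceil (σ * D / 2)
  have l2 := Nat.ceil_lt_add_one (show 0 ≤ σ * D / 2 by positivity)
  obtain ⟨d, hd, hd'⟩ : ∃ d ∈ S, S.min' hS + ⌈σ * D / 2⌉₊ ≤ d := by
    by_contra hc
    push Not at hc
    have c1 := h.up (S.min' hS) ⌈σ * D / 2⌉₊ (by
      have : (2 : ℝ) ^ (80 * n) ≤ ⌈σ * D / 2⌉₊ := by linarith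
      exact_mod_cast this)
    rw [filter_true_of_mem fun c hc' => ⟨min'_le _ _ hc', hc c hc'⟩] at c1
    have c2 := mul_lt_mul_of_pos_left (show (⌈σ * D / 2⌉₊ : ℝ) < σ * D by linarith) m0
    linarith [h.low]
  have hc := min'_mem S hS
  set c := S.min' hS
  have l3 : 0 < ⌈σ * D / 2⌉₊ := Nat.ceil_pos.2 (by positivity)
  obtain ⟨r1, r2, r3, r4⟩ := h.c4 n1 hc hd (by omega)
  obtain ⟨b1, b2⟩ := hh_bd h.a1 h.ab h.D0 (h.mem c hc).1 (show c ≤ d by omega) (h.mem d hd).2.1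
  refine ⟨_, _, r1, r2, disjoint_right.2 fun p hp => (r3 p hp).1, ⟨a * c + 1, by simp [Q4]⟩,
    le_trans ?_ b1, b2.trans (one_div_le_one_div_of_le (by positivity) ?_)⟩
  · have c1 : ∑ p ∈ Q4 a b c d, 1 / (p : ℝ) ≤ 4 * (1 / (a * D)) := by
      refine (sum_le_card_nsmul _ _ (1 / (a * D : ℝ)) fun p hp =>
        one_div_le_one_div_of_le (by positivity) (by exact_mod_cast (r3 p hp).2)).trans ?_
      rw [nsmul_eq_mul]
      exact mul_le_mul_of_nonneg_right (by exact_mod_cast r4) (by positivity)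
    have c2 : σ * D / 2 ≤ (d : ℝ) - c := by
      have : (c : ℝ) + ⌈σ * D / 2⌉₊ ≤ d := by exact_mod_cast hd'
      linarith
    refine (mul_le_mul_of_nonneg_left c1 (by positivity)).trans
      (le_trans (le_of_eq ?_) (div_le_div_of_nonneg_right c2 (by positivity)))
    field_simp
    ring
  · have : (2 : ℝ) ^ (200 * n) ≤ 2 ^ (205 * n) := pow_le_pow_right₀ one_le_two (by omega)
    nlinarith

end

/-- a dense set has a small multiple of every small number as a difference -/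
theorem cover (H : Finset ℤ) (s x : ℤ) (N r : ℕ) (hH : ∀ h ∈ H, s ≤ h ∧ h < s + N)
    (hc : 3 * N < (r + 1) * H.card) (hx : r * |x| ≤ N) :
    ∃ j : ℕ, 1 ≤ j ∧ j ≤ r ∧ ∃ h ∈ H, ∃ h' ∈ H, h - h' = j * x := by
  obtain ⟨⟨i, h⟩, a1, ⟨i', h'⟩, a2, a3, a4⟩ := exists_ne_map_eq_of_card_lt_of_maps_to
    (s := range (r + 1) ×ˢ H) (t := Ico (s - N) (s + 2 * N)) (f := fun p => p.2 + p.1 * x)
    (by rw [card_product, card_range, Int.card_Ico]; omega) fun p hp => by
      obtain ⟨b1, b2⟩ := mem_product.1 (mem_coe.1 hp)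
      obtain ⟨b3, b4⟩ := hH _ b2
      have b5 : (p.1 : ℤ) ≤ r := by exact_mod_cast Nat.le_of_lt_succ (mem_range.1 b1)
      have b6 : |(p.1 : ℤ) * x| ≤ N := by
        rw [abs_mul, Nat.abs_cast]
        exact (mul_le_mul_of_nonneg_right b5 (abs_nonneg x)).trans hx
      rw [abs_le] at b6
      exact mem_coe.2 (mem_Ico.2 ⟨by linarith [b6.1], by linarith [b6.2]⟩)
  obtain ⟨b1, b2⟩ := mem_product.1 a1
  obtain ⟨b3, b4⟩ := mem_product.1 a2
  simp only [mem_range] at b1 b2 b3 b4 a4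
  rcases lt_trichotomy i i' with e | e | e
  · refine ⟨i' - i, by omega, by omega, h, b2, h', b4, ?_⟩
    rw [Nat.cast_sub e.le]
    linarith
  · subst e
    exact absurd (by rw [add_right_cancel a4]) a3
  · refine ⟨i - i', by omega, by omega, h', b4, h, b2, ?_⟩
    rw [Nat.cast_sub e.le]
    linarith

theorem fresh {a b : ℕ} (a0 : 0 < a) (b0 : 0 < b) (F T : Finset ℕ) (z : ℕ)
    (h : 2 * T.card + 1 < F.card) : ∃ c ∈ F, c ≠ z ∧ a * c + 1 ∉ T ∧ b * c + 1 ∉ T := by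
  by_contra hc
  push Not at hc
  have one : ∀ x : ℕ, 0 < x → (F.filter fun c => x * c + 1 ∈ T).card ≤ T.card := fun x x0 =>
    card_le_card_of_injOn (fun c => x * c + 1) (fun c hc => (mem_filter.1 (mem_coe.1 hc)).2)
      fun _ _ _ _ e => Nat.eq_of_mul_eq_mul_left x0 (Nat.add_right_cancel e)
  have s : F ⊆ insert z ((F.filter fun c => a * c + 1 ∈ T) ∪ F.filter fun c => b * c + 1 ∈ T) := by
    intro c hc'
    simp only [mem_insert, mem_union, mem_filter]
    have := hc c hc'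
    tauto
  have := (card_le_card s).trans ((card_insert_le _ _).trans (Nat.add_le_add_right
    ((card_union_le _ _).trans (add_le_add (one a a0) (one b b0))) 1))
  omega

end Pool.Agent.MP_35c637_nt.OS

end
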