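import Mathlib.NumberTheory.ArithmeticFunction.Liouville
import Pool.Agent.MP_35c637_nt.os.Fine

/-! The chain of scales and the theorem. -/

set_option autoImplicit false

noncomputable section

namespace Pool.Agent.MP_35c637_nt.OS

open Finset Filter ArithmeticFunction

def sc (n : ℕ) : ℕ → ℕ
  | 0 => n
  | i + 1 => sc n i + sc n i / 10 + 1

theorem sc_succ (n i : ℕ) : 11 * sc n i ≤ 10 * sc n (i + 1) ∧ 10 * sc n (i + 1) ≤ 11 * sc n i + 10 := by
  rw [sc]
  omega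

theorem sc_mono (n : ℕ) : Monotone (sc n) :=
  monotone_nat_of_le_succ fun i => by have := sc_succ n i; omega

theorem sc_ge (n i : ℕ) : n + i ≤ sc n i := by
  induction i with
  | zero => exact le_rfl
  | succ i ih => rw [sc]; omega

def Sp (n M : ℕ) (I : ℕ → Prop) (S : Finset ℕ) : Prop := ∀ p ∈ S, p.Prime ∧ p ≡ 1 [MOD M] ∧
  ∃ i, I i ∧ 2 ^ (200 * sc n i) < p ∧ p ≤ 2 ^ (220 * sc n i)

theorem Sp.mono {n M : ℕ} {I I' : ℕ → Prop} {S : Finset ℕ} (h : Sp n M I S) (e : ∀ i, I i → I' i) :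
    Sp n M I' S := fun p hp => by
  obtain ⟨a1, a2, i, a3, a4⟩ := h p hp
  exact ⟨a1, a2, i, e i a3, a4⟩

theorem Sp.union {n M j : ℕ} {I I' : ℕ → Prop} {S T : Finset ℕ} (h : Sp n M I S)
    (h' : In (sc n j) M T) (e : ∀ i, I i → I' i) (ej : I' j) : Sp n M I' (S ∪ T) := fun p hp =>
  (mem_union.1 hp).elim (h.mono e p) fun hp => ⟨(h' p hp).1, (h' p hp).2.1, j, ej, (h' p hp).2.2⟩

theorem Sp.disj {n M j : ℕ} {I : ℕ → Prop} {S T : Finset ℕ} (h : Sp n M I S)
    (h' : In (sc n j) M T) (e : ¬I j) : Disjoint S T := by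
  have key : ∀ i k, i < k → 2 ^ (220 * sc n i) ≤ 2 ^ (200 * sc n k) := fun i k hik =>
    Nat.pow_le_pow_right two_pos (by
      have := sc_succ n i
      have := sc_mono n (show i + 1 ≤ k from hik)
      omega)
  refine disjoint_left.2 fun p hp hp' => ?_
  obtain ⟨-, -, i, a1, a2, a3⟩ := h p hp
  obtain ⟨-, -, a4, a5⟩ := h' p hp'
  rcases lt_trichotomy i j with c | c | c
  · have := key i j c
    omega
  · exact e (c ▸ a1)
  · have := key j i c
    omega

theorem start {M : ℕ} (hM : 0 < M) {t : ℝ} (t0 : 0 ≤ t) : ∀ᶠ n : ℕ in atTop,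
    ∃ (S : Finset ℕ) (v : ℝ), Rl S v ∧ Sp n M Odd S ∧ v ≤ t ∧ t - 1 / 2 ^ (220 * n) ≤ v := by
  obtain ⟨κ, κ0, h⟩ := greedy hM
  obtain ⟨n0, h⟩ := eventually_atTop.1 h
  filter_upwards [eventually_ge_atTop n0] with n hn
  have it : ∀ J : ℕ, ∃ (S : Finset ℕ) (v : ℝ), Rl S v ∧ Sp n M (fun i => Odd i ∧ i < 2 * J) S ∧
      v ≤ t ∧ (t - 1 / 2 ^ (220 * n) ≤ v ∨ J * κ ≤ v) := by
    intro J
    induction J with
    | zero => exact ⟨∅, 0, Rl.zero, fun _ h => absurd h (notMem_empty _), t0, .inr (by simp)⟩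
    | succ J ih =>
      obtain ⟨S, v, a1, a2, a3, a4 | a4⟩ := ih
      · exact ⟨S, v, a1, a2.mono fun i h => ⟨h.1, by omega⟩, a3, .inl a4⟩
      obtain ⟨T, w, b1, b2, b3, b4⟩ := h (sc n (2 * J + 1))
        (by have := sc_ge n (2 * J + 1); omega) (t - v) (by linarith)
      refine ⟨_, _, a1.add b1 (a2.disj b2 fun h => by omega), a2.union b2
        (fun i h => ⟨h.1, by omega⟩) ⟨odd_two_mul_add_one J, by omega⟩, by linarith, ?_⟩
      rcases b4 with b4 | b4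
      · have : 1 / (2 : ℝ) ^ (200 * sc n (2 * J + 1)) ≤ 1 / 2 ^ (220 * n) := by
          refine one_div_le_one_div_of_le (by positivity) (pow_le_pow_right₀ one_le_two ?_)
          have c1 := (sc_succ n 0).1
          have c2 := sc_mono n (show 0 + 1 ≤ 2 * J + 1 by omega)
          rw [show sc n 0 = n from rfl] at c1
          omega
        exact .inl (by linarith)
      · right
        push_cast
        linarith
  obtain ⟨J, hJ⟩ := exists_nat_gt (t / κ)
  obtain ⟨S, v, a1, a2, a3, a4⟩ := it J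
  rw [div_lt_iff₀ κ0] at hJ
  exact ⟨S, v, a1, a2.mono fun i h => h.1, a3, a4.resolve_right (by linarith)⟩

theorem chain : ∃ R : ℕ, ∀ M : ℕ, 0 < M → ∀ t : ℝ, 0 ≤ t → ∀ n1 : ℕ, ∃ (n : ℕ) (Lm : ℝ),
    n1 ≤ n ∧ 0 ≤ Lm ∧ ∀ J : ℕ,
    ∃ (S : Finset ℕ) (v : ℝ), Rl S v ∧ Sp n M (fun i => Odd i ∨ i < 2 * J) S ∧ v ≤ t ∧
      t - 1 / 2 ^ (220 * sc n (2 * J)) ≤ v ∧
      ∑ p ∈ S, Real.log p ≤ Lm + 8800 * R * sc n (2 * J) := by
  obtain ⟨R, h⟩ := fine
  refine ⟨R, fun M hM t t0 n1 => ?_⟩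
  obtain ⟨n0, h⟩ := eventually_atTop.1 (h M hM)
  obtain ⟨n, ⟨S0, v0, a1, a2, a3, a4⟩, hn⟩ :=
    ((start hM t0).and (eventually_ge_atTop (max (max n0 n1) 20))).exists
  refine ⟨n, ∑ p ∈ S0, Real.log p, by omega, sum_nonneg fun p _ => Real.log_natCast_nonneg p,
    fun J => ?_⟩
  induction J with
  | zero => exact ⟨S0, v0, a1, a2.mono fun i h => .inl h, a3, a4,
      le_add_of_nonneg_right (by positivity)⟩
  | succ J ih =>
    obtain ⟨S, v, b1, b2, b3, b4, b5⟩ := ih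
    have g1 := sc_ge n (2 * J)
    have g2 := sc_succ n (2 * J)
    have g3 := sc_succ n (2 * J + 1)
    rw [show 2 * (J + 1) = 2 * J + 1 + 1 by ring]
    have e1 : 1 / (2 : ℝ) ^ (300 * sc n (2 * J)) ≤ 1 / 2 ^ (220 * sc n (2 * J)) :=
      one_div_le_one_div_of_le (by positivity) (pow_le_pow_right₀ one_le_two (by omega))
    have e0 : 0 ≤ 1 / (2 : ℝ) ^ (300 * sc n (2 * J)) := by positivity
    obtain ⟨T, w, c1, c2, c3, c4⟩ := h (sc n (2 * J)) (by omega)
      (t - v - 1 / 2 ^ (300 * sc n (2 * J))) (abs_le.2 ⟨by linarith, by linarith⟩)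
    have d := b2.disj c2 fun h => h.elim (Nat.not_odd_iff_even.2 (even_two_mul J)) (lt_irrefl _)
    have e2 : 2 * (1 / (2 : ℝ) ^ (300 * sc n (2 * J))) ≤ 1 / 2 ^ (220 * sc n (2 * J + 1 + 1)) := by
      rw [mul_one_div, div_le_div_iff₀ (by positivity) (by positivity), one_mul, ← pow_succ']
      exact pow_le_pow_right₀ one_le_two (by omega)
    rw [abs_le] at c4
    refine ⟨_, _, b1.add c1 d, b2.union c2 (fun i h => h.imp id (by omega)) (.inr (by omega)),
      by linarith [c4.2], by linarith [c4.1], ?_⟩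
    have e3 : ∑ p ∈ T, Real.log p ≤ 4 * R * (220 * sc n (2 * J) : ℕ) := by
      refine (sum_le_card_nsmul _ _ ((220 * sc n (2 * J) : ℕ) : ℝ) fun p hp => le_trans
        (Real.log_le_log (by exact_mod_cast (c2 p hp).1.pos) (Nat.cast_le.2 (c2 p hp).2.2.2))
        (log2pow _).2).trans ?_
      rw [nsmul_eq_mul]
      exact mul_le_mul_of_nonneg_right (by exact_mod_cast c3) (Nat.cast_nonneg _)
    have e4 : 11 * (sc n (2 * J) : ℝ) ≤ 10 * sc n (2 * J + 1 + 1) := by exact_mod_cast (by omega)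
    have e5 := mul_le_mul_of_nonneg_left e4 (show (0 : ℝ) ≤ 880 * R by positivity)
    rw [sum_union d]
    push_cast at e3
    linarith

def bb : ArithmeticFunction ℤ := ((ArithmeticFunction.id : ArithmeticFunction ℕ) :
  ArithmeticFunction ℤ) * liouville

theorem bb_apply (n : ℕ) :
    bb n = ∑ d ∈ n.divisors, (-1 : ℤ) ^ (cardFactors (n / d)) * (d : ℤ) := by
  rw [bb, mul_apply, Nat.sum_divisorsAntidiagonal (f := fun a b =>
    ((ArithmeticFunction.id : ArithmeticFunction ℕ) : ArithmeticFunction ℤ) a * liouville b)]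
  refine sum_congr rfl fun d hd => ?_
  obtain ⟨h1, h2⟩ := Nat.mem_divisors.1 hd
  rw [liouville_apply (Nat.div_pos (Nat.le_of_dvd (Nat.pos_of_ne_zero h2) h1)
    (Nat.pos_of_mem_divisors hd)).ne', mul_comm]
  simp

theorem bb_mult : bb.IsMultiplicative :=
  isMultiplicative_id.natCast.mul isMultiplicative_liouville

theorem bb_prime (p : ℕ) (hp : p.Prime) : bb p = (p : ℤ) - 1 := by
  rw [bb_apply, hp.sum_divisors, Nat.div_self hp.pos, Nat.div_one, cardFactors_apply_prime hp]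
  simp
  ring

theorem f_prod {f : ArithmeticFunction ℤ} (hm : f.IsMultiplicative)
    (hf : ∀ p : ℕ, p.Prime → f p = (p : ℤ) - 1) (T : Finset ℕ) (h : ∀ p ∈ T, p.Prime) :
    f (∏ p ∈ T, p) = ((∏ p ∈ T, (p - 1) : ℕ) : ℤ) := by
  rw [hm.map_prod_of_prime T h, Nat.cast_prod]
  refine prod_congr rfl fun p hp => ?_
  rw [hf p (h p hp), Nat.cast_sub (h p hp).one_le, Nat.cast_one]

theorem prod_one_mod {M : ℕ} (T : Finset ℕ) (h : ∀ p ∈ T, p ≡ 1 [MOD M]) :
    ∏ p ∈ T, p ≡ 1 [MOD M] :=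
  prod_induction _ (· ≡ 1 [MOD M]) (fun _ _ a b => by simpa using a.mul b) Nat.ModEq.rfl h

theorem main : ∃ η : ℝ, 0 < η ∧ ∀ f : ArithmeticFunction ℤ, f.IsMultiplicative →
    (∀ p : ℕ, p.Prime → f p = (p : ℤ) - 1) →
    ∀ a : ℕ, 0 < a → f a = f (a + 1) → ∀ M : ℕ, 0 < M → ∀ N : ℕ,
    ∃ n k : ℕ, N < n ∧ 1 ≤ k ∧ (k : ℝ) ≤ (n : ℝ) ^ (1 - η) ∧ Odd k ∧ n ≡ a [MOD M] ∧
      k ≡ 1 [MOD M] ∧ n.Coprime (n + k) ∧ f n = f (n + k) := by
  obtain ⟨R, h⟩ := chain
  refine ⟨1 / (100 * (R + 1)), by positivity, fun f hm hf a a0 ha M hM N => ?_⟩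
  have a0' : (0 : ℝ) < a := by exact_mod_cast a0
  obtain ⟨n0, Lm, n1, hL0, h⟩ := h M hM (Real.log (a + 1) - Real.log a)
    (sub_nonneg.2 (Real.log_le_log a0' (by linarith))) (a + 1)
  obtain ⟨J, hJ1, hJ2⟩ := ((ev (2 * Real.exp (Real.log a + Lm)) 0 1 one_pos).and
    (eventually_ge_atTop (N + 1))).exists
  rw [pow_zero, mul_one, Nat.div_one] at hJ1
  obtain ⟨S, v, ⟨U, W, a1, rfl, a3, a4⟩, b2, b3, b4, b5⟩ := h J
  have g1 := sc_ge n0 (2 * J)
  set s := sc n0 (2 * J)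
  have pr : ∀ p ∈ U ∪ W, p.Prime ∧ a + 1 < p := fun p hp => by
    obtain ⟨c1, -, i, -, c2, -⟩ := b2 p hp
    have c3 := sc_ge n0 i
    have c4 := Nat.lt_two_pow_self (n := 200 * sc n0 i)
    exact ⟨c1, by omega⟩
  have pU : ∀ p ∈ U, p.Prime := fun p hp => (pr p (mem_union_left _ hp)).1
  have pW : ∀ p ∈ W, p.Prime := fun p hp => (pr p (mem_union_right _ hp)).1
  have cp : ∀ T ⊆ U ∪ W, ∀ x : ℕ, 0 < x → x ≤ a + 1 → x.Coprime (∏ p ∈ T, p) :=
    fun T hT x x0 x1 => Nat.Coprime.prod_right fun p hp =>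
      (Nat.coprime_of_lt_prime x0.ne' (x1.trans_lt (pr p (hT hp)).2) (pr p (hT hp)).1).symm
  have cU := cp U subset_union_left
  have cW := cp W subset_union_right
  have cUW : (∏ p ∈ U, p).Coprime (∏ p ∈ W, p) :=
    Nat.Coprime.prod_left fun p hp => Nat.Coprime.prod_right fun q hq =>
      (Nat.coprime_primes (pU p hp) (pW q hq)).2 fun e => disjoint_left.1 a1 hp (e ▸ hq)
  have bU := f_prod hm hf U pU
  have bW := f_prod hm hf W pW
  have mU := prod_one_mod U fun p hp => (b2 p (mem_union_left _ hp)).2.1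
  have mW := prod_one_mod W fun p hp => (b2 p (mem_union_right _ hp)).2.1
  have lu : Real.log (∏ p ∈ U, p : ℕ) = ∑ p ∈ U, Real.log p := by
    rw [Nat.cast_prod, Real.log_prod fun p hp => by exact_mod_cast (pU p hp).ne_zero]
  have lw : Real.log (∏ p ∈ W, p : ℕ) = ∑ p ∈ W, Real.log p := by
    rw [Nat.cast_prod, Real.log_prod fun p hp => by exact_mod_cast (pW p hp).ne_zero]
  have u0 : (0 : ℝ) < (∏ p ∈ U, p : ℕ) := Nat.cast_pos.2 (prod_pos fun p hp => (pU p hp).pos)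
  have w0 : (0 : ℝ) < (∏ p ∈ W, p : ℕ) := Nat.cast_pos.2 (prod_pos fun p hp => (pW p hp).pos)
  generalize ∏ p ∈ U, p = u at cU cUW bU mU lu u0
  generalize ∏ p ∈ W, p = w at cW cUW bW mW lw w0
  have x0 : (0 : ℝ) < (a * u : ℕ) := by push_cast; positivity
  have y0 : (0 : ℝ) < ((a + 1) * w : ℕ) := by push_cast; positivity
  have lx : Real.log (a * u : ℕ) = Real.log a + Real.log u := by
    rw [Nat.cast_mul, Real.log_mul a0'.ne' u0.ne']
  have ly : Real.log ((a + 1) * w : ℕ) = Real.log (a + 1) + Real.log w := by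
    push_cast
    rw [Real.log_mul (by positivity) w0.ne']
  have cop : (a * u).Coprime ((a + 1) * w) :=
    Nat.Coprime.mul_left (Nat.Coprime.mul_right (by simp) (cW a a0 (by omega)))
      (Nat.Coprime.mul_right (cU (a + 1) (by omega) le_rfl).symm cUW)
  have par : Odd (a * u + (a + 1) * w) := by
    have c1 : Odd u := Nat.coprime_two_left.1 (cU 2 two_pos (by omega))
    have c2 : Odd w := Nat.coprime_two_left.1 (cW 2 two_pos (by omega))
    rcases a.even_or_odd with c | c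
    · exact (c.mul_right u).add_odd (c.add_one.mul c2)
    · exact (c.mul c1).add_even (c.add_one.mul_right w)
  have eb : f (a * u) = f ((a + 1) * w) := by
    rw [hm.map_mul_of_coprime (cU a a0 (by omega)),
      hm.map_mul_of_coprime (cW (a + 1) (by omega) le_rfl), ha, bU, bW, a3]
  have mx : a * u ≡ a [MOD M] := by simpa using mU.mul_left a
  have my : (a + 1) * w ≡ a + 1 [MOD M] := by simpa using mW.mul_left (a + 1)
  have c1 : Real.log (a * u : ℕ) ≤ Real.log a + Lm + 8800 * R * s := by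
    rw [sum_union a1] at b5
    linarith [Real.log_natCast_nonneg w]
  have d1 : Real.log (a * u : ℕ) ≤ Real.log ((a + 1) * w : ℕ) := by linarith
  have d2 : Real.log ((a + 1) * w : ℕ) - 1 / 2 ^ (220 * s) ≤ Real.log (a * u : ℕ) := by linarith
  have la := Real.log_natCast_nonneg a
  generalize a * u = x at x0 cop par eb mx c1 d1 d2
  generalize (a + 1) * w = y at y0 cop par eb my d1 d2
  obtain ⟨k, rfl⟩ := Nat.exists_eq_add_of_le (Nat.cast_le.1 ((Real.log_le_log_iff x0 y0).1 d1))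
  have ok : Odd k := by
    obtain ⟨j, hj⟩ := par
    exact ⟨j - x, by omega⟩
  have t1 : (k : ℝ) ≤ 2 * x / 2 ^ (220 * s) := by
    have c1 := Real.log_le_sub_one_of_pos (div_pos x0 y0)
    rw [Real.log_div x0.ne' y0.ne', div_sub_one y0.ne'] at c1
    have c2 : -(1 / (2 : ℝ) ^ (220 * s)) ≤ (x - (x + k : ℕ)) / (x + k : ℕ) := by linarith
    rw [le_div_iff₀ y0] at c2
    have c3 : 1 / (2 : ℝ) ^ (220 * s) ≤ 1 / 2 ^ 1 :=
      one_div_le_one_div_of_le (by positivity) (pow_le_pow_right₀ one_le_two (by omega))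
    push_cast at c2 y0
    have c4 : (k : ℝ) ≤ x := by nlinarith
    rw [div_eq_mul_one_div]
    nlinarith [show 0 ≤ 1 / (2 : ℝ) ^ (220 * s) by positivity]
  have k1 : (1 : ℝ) ≤ k := by exact_mod_cast ok.pos
  refine ⟨x, k, ?_, ok.pos, t1.trans ?_, ok, mx, Nat.ModEq.add_left_cancel mx my, cop, eb⟩
  · have c1 := (le_div_iff₀ (by positivity)).1 (k1.trans t1)
    have c2 : 1 * 2 ^ (220 * s) ≤ 2 * x := by exact_mod_cast c1
    have c3 : 2 ^ (N + 1) ≤ 2 ^ (220 * s) := Nat.pow_le_pow_right two_pos (by omega)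
    have c4 := Nat.lt_two_pow_self (n := N)
    omega
  · rw [Real.rpow_sub x0, Real.rpow_one, div_le_div_iff₀ (by positivity) (by positivity),
      mul_comm (2 : ℝ), mul_assoc]
    refine mul_le_mul_of_nonneg_left ?_ x0.le
    have c2 : Real.log x * (1 / (100 * (R + 1))) ≤ Real.log a + Lm + s * 88 := by
      rw [mul_one_div, div_le_iff₀ (by positivity)]
      have : (0 : ℝ) ≤ R := Nat.cast_nonneg R
      have : (0 : ℝ) ≤ s := Nat.cast_nonneg s
      nlinarith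
    have c3 : Real.exp 88 ≤ 2 ^ 176 := by
      rw [show (88 : ℝ) = (88 : ℕ) * 1 by norm_num, Real.exp_nat_mul, show 176 = 2 * 88 by rfl, pow_mul]
      exact pow_le_pow_left₀ (Real.exp_pos 1).le (Real.exp_one_lt_d9.le.trans (by norm_num)) 88
    rw [Real.rpow_def_of_pos x0]
    refine (mul_le_mul_of_nonneg_left (Real.exp_le_exp.2 c2) zero_le_two).trans ?_
    rw [Real.exp_add, Real.exp_nat_mul, ← mul_assoc]
    refine (mul_le_mul hJ1 (pow_le_pow_left₀ (Real.exp_pos _).le c3 s) (by positivity)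
      (by positivity)).trans ?_
    rw [← pow_mul, ← pow_add]
    exact pow_le_pow_right₀ one_le_two (by omega)

/-- The alternating divisor sum, written as in the frozen statement, is an instance, and `a = 1`
meets the hypothesis. -/
theorem beta_case : ∃ η : ℝ, 0 < η ∧ ∀ M : ℕ, 0 < M → ∀ N : ℕ,
    ∃ n k : ℕ, N < n ∧ 1 ≤ k ∧ (k : ℝ) ≤ (n : ℝ) ^ (1 - η) ∧ Odd k ∧ n ≡ 1 [MOD M] ∧
      k ≡ 1 [MOD M] ∧ n.Coprime (n + k) ∧
      ∑ d ∈ n.divisors, (-1 : ℤ) ^ (cardFactors (n / d)) * (d : ℤ) =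
      ∑ d ∈ (n + k).divisors, (-1 : ℤ) ^ (cardFactors ((n + k) / d)) * (d : ℤ) := by
  obtain ⟨η, h0, h⟩ := main
  refine ⟨η, h0, ?_⟩
  simp only [← bb_apply]
  refine h bb bb_mult bb_prime 1 one_pos ?_
  rw [bb_mult.map_one, bb_prime 2 Nat.prime_two]
  norm_num

end Pool.Agent.MP_35c637_nt.OS

end
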